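import Pool.Agent.AlefT.Defs

/-!
# Infinitely many inequivalent exact covers

The covers `h5_P n` depend only on the level `u(p) = 2 p.1 - p.2`, so exactness is one-dimensional (`h5_exists`,
`h5_unique`). Inequivalence: types 1 and 3 occupy one level each.
-/

set_option autoImplicit false

namespace AlefT

/-- the level of a cell -/
def h5_u (p : ℤ × ℤ) : ℤ := 2 * p.1 - p.2

/-- the levels of the placements of each type -/
def h5_U (n : ℕ) (g : Fin 4) (v : ℤ) : Prop :=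
  match g with
  | 0 => (v ≤ -5 ∧ v % 9 = 4) ∨ (14 ≤ v ∧ v < 14 + 18 * (n : ℤ) ∧ v % 18 = 14)
  | 1 => v = 11
  | 2 => (25 ≤ v ∧ v < 25 + 18 * (n : ℤ) ∧ v % 18 = 7) ∨ (26 + 18 * (n : ℤ) ≤ v ∧ v % 9 = 8)
  | 3 => v = 10 + 18 * (n : ℤ)

/-- the levels of the cells of each type -/
def h5_S (g : Fin 4) : List ℤ :=
  match g with
  | 0 => [0, -1, -4, -2, 3, 6, 4, 2, 10]
  | 1 => [0, -2, -8, -9, -4, -3, -7, -11, -5]
  | 2 => [0, 1, 4, 2, -3, -6, -4, -2, -10]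
  | 3 => [0, 2, 8, 9, 4, 3, 7, 11, 5]

/-- the family -/
def h5_P (n : ℕ) : Set Pl := {q | h5_U n q.1 (h5_u q.2)}

private theorem h5_ex0 (n : ℕ) (x : ℤ) (hx : x % 18 = 0) : ∃ g : Fin 4, ∃ a ∈ h5_S g, h5_U n g (x - a) := by
  have h : x ≤ -18 ∨ x = 0 ∨ (18 ≤ x ∧ x < 18 + 18 * (n : ℤ)) ∨ x = 18 + 18 * (n : ℤ) ∨ 36 + 18 * (n : ℤ) ≤ x := by omega
  rcases h with h | h | h | h | h
  · exact ⟨0, -4, by simp [h5_S], by simp only [h5_U]; omega⟩
  · exact ⟨1, -11, by simp [h5_S], by simp only [h5_U]; omega⟩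
  · exact ⟨0, 4, by simp [h5_S], by simp only [h5_U]; omega⟩
  · exact ⟨3, 8, by simp [h5_S], by simp only [h5_U]; omega⟩
  · exact ⟨2, 1, by simp [h5_S], by simp only [h5_U]; omega⟩

private theorem h5_ex1 (n : ℕ) (x : ℤ) (hx : x % 18 = 1) : ∃ g : Fin 4, ∃ a ∈ h5_S g, h5_U n g (x - a) := by
  have h : x ≤ 1 ∨ (19 ≤ x ∧ x < 19 + 18 * (n : ℤ)) ∨ x = 19 + 18 * (n : ℤ) ∨ 37 + 18 * (n : ℤ) ≤ x := by omega
  rcases h with h | h | h | h
  · exact ⟨0, 6, by simp [h5_S], by simp only [h5_U]; omega⟩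
  · exact ⟨2, -6, by simp [h5_S], by simp only [h5_U]; omega⟩
  · exact ⟨3, 9, by simp [h5_S], by simp only [h5_U]; omega⟩
  · exact ⟨2, 2, by simp [h5_S], by simp only [h5_U]; omega⟩

private theorem h5_ex2 (n : ℕ) (x : ℤ) (hx : x % 18 = 2) : ∃ g : Fin 4, ∃ a ∈ h5_S g, h5_U n g (x - a) := by
  have h : x ≤ -16 ∨ x = 2 ∨ (20 ≤ x ∧ x < 20 + 18 * (n : ℤ)) ∨ 20 + 18 * (n : ℤ) ≤ x := by omega
  rcases h with h | h | h | h
  · exact ⟨0, -2, by simp [h5_S], by simp only [h5_U]; omega⟩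
  · exact ⟨1, -9, by simp [h5_S], by simp only [h5_U]; omega⟩
  · exact ⟨0, 6, by simp [h5_S], by simp only [h5_U]; omega⟩
  · exact ⟨2, -6, by simp [h5_S], by simp only [h5_U]; omega⟩

private theorem h5_ex3 (n : ℕ) (x : ℤ) (hx : x % 18 = 3) : ∃ g : Fin 4, ∃ a ∈ h5_S g, h5_U n g (x - a) := by
  have h : x ≤ -15 ∨ x = 3 ∨ (21 ≤ x ∧ x < 21 + 18 * (n : ℤ)) ∨ x = 21 + 18 * (n : ℤ) ∨ 39 + 18 * (n : ℤ) ≤ x := by omega
  rcases h with h | h | h | h | h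
  · exact ⟨0, -1, by simp [h5_S], by simp only [h5_U]; omega⟩
  · exact ⟨1, -8, by simp [h5_S], by simp only [h5_U]; omega⟩
  · exact ⟨2, -4, by simp [h5_S], by simp only [h5_U]; omega⟩
  · exact ⟨3, 11, by simp [h5_S], by simp only [h5_U]; omega⟩
  · exact ⟨2, 4, by simp [h5_S], by simp only [h5_U]; omega⟩

private theorem h5_ex4 (n : ℕ) (x : ℤ) (hx : x % 18 = 4) : ∃ g : Fin 4, ∃ a ∈ h5_S g, h5_U n g (x - a) := by
  have h : x ≤ -14 ∨ x = 4 ∨ (22 ≤ x ∧ x < 22 + 18 * (n : ℤ)) ∨ 22 + 18 * (n : ℤ) ≤ x := by omega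
  rcases h with h | h | h | h
  · exact ⟨0, 0, by simp [h5_S], by simp only [h5_U]; omega⟩
  · exact ⟨1, -7, by simp [h5_S], by simp only [h5_U]; omega⟩
  · exact ⟨2, -3, by simp [h5_S], by simp only [h5_U]; omega⟩
  · exact ⟨2, -4, by simp [h5_S], by simp only [h5_U]; omega⟩

private theorem h5_ex5 (n : ℕ) (x : ℤ) (hx : x % 18 = 5) : ∃ g : Fin 4, ∃ a ∈ h5_S g, h5_U n g (x - a) := by
  have h : x ≤ 5 ∨ (23 ≤ x ∧ x < 23 + 18 * (n : ℤ)) ∨ 23 + 18 * (n : ℤ) ≤ x := by omega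
  rcases h with h | h | h
  · exact ⟨0, 10, by simp [h5_S], by simp only [h5_U]; omega⟩
  · exact ⟨2, -2, by simp [h5_S], by simp only [h5_U]; omega⟩
  · exact ⟨2, -3, by simp [h5_S], by simp only [h5_U]; omega⟩

private theorem h5_ex6 (n : ℕ) (x : ℤ) (hx : x % 18 = 6) : ∃ g : Fin 4, ∃ a ∈ h5_S g, h5_U n g (x - a) := by
  have h : x ≤ -12 ∨ x = 6 ∨ (24 ≤ x ∧ x < 24 + 18 * (n : ℤ)) ∨ 24 + 18 * (n : ℤ) ≤ x := by omega
  rcases h with h | h | h | h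
  · exact ⟨0, 2, by simp [h5_S], by simp only [h5_U]; omega⟩
  · exact ⟨1, -5, by simp [h5_S], by simp only [h5_U]; omega⟩
  · exact ⟨0, 10, by simp [h5_S], by simp only [h5_U]; omega⟩
  · exact ⟨2, -2, by simp [h5_S], by simp only [h5_U]; omega⟩

private theorem h5_ex7 (n : ℕ) (x : ℤ) (hx : x % 18 = 7) : ∃ g : Fin 4, ∃ a ∈ h5_S g, h5_U n g (x - a) := by
  have h : x ≤ -11 ∨ x = 7 ∨ (25 ≤ x ∧ x < 25 + 18 * (n : ℤ)) ∨ 25 + 18 * (n : ℤ) ≤ x := by omega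
  rcases h with h | h | h | h
  · exact ⟨0, 3, by simp [h5_S], by simp only [h5_U]; omega⟩
  · exact ⟨1, -4, by simp [h5_S], by simp only [h5_U]; omega⟩
  · exact ⟨2, 0, by simp [h5_S], by simp only [h5_U]; omega⟩
  · exact ⟨2, -10, by simp [h5_S], by simp only [h5_U]; omega⟩

private theorem h5_ex8 (n : ℕ) (x : ℤ) (hx : x % 18 = 8) : ∃ g : Fin 4, ∃ a ∈ h5_S g, h5_U n g (x - a) := by
  have h : x ≤ -10 ∨ x = 8 ∨ (26 ≤ x ∧ x < 26 + 18 * (n : ℤ)) ∨ 26 + 18 * (n : ℤ) ≤ x := by omega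
  rcases h with h | h | h | h
  · exact ⟨0, 4, by simp [h5_S], by simp only [h5_U]; omega⟩
  · exact ⟨1, -3, by simp [h5_S], by simp only [h5_U]; omega⟩
  · exact ⟨2, 1, by simp [h5_S], by simp only [h5_U]; omega⟩
  · exact ⟨2, 0, by simp [h5_S], by simp only [h5_U]; omega⟩

private theorem h5_ex9 (n : ℕ) (x : ℤ) (hx : x % 18 = 9) : ∃ g : Fin 4, ∃ a ∈ h5_S g, h5_U n g (x - a) := by
  have h : x ≤ -9 ∨ x = 9 ∨ (27 ≤ x ∧ x < 27 + 18 * (n : ℤ)) ∨ 27 + 18 * (n : ℤ) ≤ x := by omega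
  rcases h with h | h | h | h
  · exact ⟨0, -4, by simp [h5_S], by simp only [h5_U]; omega⟩
  · exact ⟨1, -2, by simp [h5_S], by simp only [h5_U]; omega⟩
  · exact ⟨2, 2, by simp [h5_S], by simp only [h5_U]; omega⟩
  · exact ⟨2, 1, by simp [h5_S], by simp only [h5_U]; omega⟩

private theorem h5_ex10 (n : ℕ) (x : ℤ) (hx : x % 18 = 10) : ∃ g : Fin 4, ∃ a ∈ h5_S g, h5_U n g (x - a) := by
  have h : x ≤ -8 ∨ (10 ≤ x ∧ x < 10 + 18 * (n : ℤ)) ∨ x = 10 + 18 * (n : ℤ) ∨ 28 + 18 * (n : ℤ) ≤ x := by omega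
  rcases h with h | h | h | h
  · exact ⟨0, 6, by simp [h5_S], by simp only [h5_U]; omega⟩
  · exact ⟨0, -4, by simp [h5_S], by simp only [h5_U]; omega⟩
  · exact ⟨3, 0, by simp [h5_S], by simp only [h5_U]; omega⟩
  · exact ⟨2, 2, by simp [h5_S], by simp only [h5_U]; omega⟩

private theorem h5_ex11 (n : ℕ) (x : ℤ) (hx : x % 18 = 11) : ∃ g : Fin 4, ∃ a ∈ h5_S g, h5_U n g (x - a) := by
  have h : x ≤ -7 ∨ x = 11 ∨ (29 ≤ x ∧ x < 29 + 18 * (n : ℤ)) ∨ 29 + 18 * (n : ℤ) ≤ x := by omega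
  rcases h with h | h | h | h
  · exact ⟨0, -2, by simp [h5_S], by simp only [h5_U]; omega⟩
  · exact ⟨1, 0, by simp [h5_S], by simp only [h5_U]; omega⟩
  · exact ⟨2, 4, by simp [h5_S], by simp only [h5_U]; omega⟩
  · exact ⟨2, -6, by simp [h5_S], by simp only [h5_U]; omega⟩

private theorem h5_ex12 (n : ℕ) (x : ℤ) (hx : x % 18 = 12) : ∃ g : Fin 4, ∃ a ∈ h5_S g, h5_U n g (x - a) := by
  have h : x ≤ -6 ∨ (12 ≤ x ∧ x < 12 + 18 * (n : ℤ)) ∨ x = 12 + 18 * (n : ℤ) ∨ 30 + 18 * (n : ℤ) ≤ x := by omega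
  rcases h with h | h | h | h
  · exact ⟨0, -1, by simp [h5_S], by simp only [h5_U]; omega⟩
  · exact ⟨0, -2, by simp [h5_S], by simp only [h5_U]; omega⟩
  · exact ⟨3, 2, by simp [h5_S], by simp only [h5_U]; omega⟩
  · exact ⟨2, 4, by simp [h5_S], by simp only [h5_U]; omega⟩

private theorem h5_ex13 (n : ℕ) (x : ℤ) (hx : x % 18 = 13) : ∃ g : Fin 4, ∃ a ∈ h5_S g, h5_U n g (x - a) := by
  have h : x ≤ -5 ∨ (13 ≤ x ∧ x < 13 + 18 * (n : ℤ)) ∨ x = 13 + 18 * (n : ℤ) ∨ 31 + 18 * (n : ℤ) ≤ x := by omega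
  rcases h with h | h | h | h
  · exact ⟨0, 0, by simp [h5_S], by simp only [h5_U]; omega⟩
  · exact ⟨0, -1, by simp [h5_S], by simp only [h5_U]; omega⟩
  · exact ⟨3, 3, by simp [h5_S], by simp only [h5_U]; omega⟩
  · exact ⟨2, -4, by simp [h5_S], by simp only [h5_U]; omega⟩

private theorem h5_ex14 (n : ℕ) (x : ℤ) (hx : x % 18 = 14) : ∃ g : Fin 4, ∃ a ∈ h5_S g, h5_U n g (x - a) := by
  have h : x ≤ -4 ∨ (14 ≤ x ∧ x < 14 + 18 * (n : ℤ)) ∨ x = 14 + 18 * (n : ℤ) ∨ 32 + 18 * (n : ℤ) ≤ x := by omega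
  rcases h with h | h | h | h
  · exact ⟨0, 10, by simp [h5_S], by simp only [h5_U]; omega⟩
  · exact ⟨0, 0, by simp [h5_S], by simp only [h5_U]; omega⟩
  · exact ⟨3, 4, by simp [h5_S], by simp only [h5_U]; omega⟩
  · exact ⟨2, -3, by simp [h5_S], by simp only [h5_U]; omega⟩

private theorem h5_ex15 (n : ℕ) (x : ℤ) (hx : x % 18 = 15) : ∃ g : Fin 4, ∃ a ∈ h5_S g, h5_U n g (x - a) := by
  have h : x ≤ -3 ∨ (15 ≤ x ∧ x < 15 + 18 * (n : ℤ)) ∨ x = 15 + 18 * (n : ℤ) ∨ 33 + 18 * (n : ℤ) ≤ x := by omega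
  rcases h with h | h | h | h
  · exact ⟨0, 2, by simp [h5_S], by simp only [h5_U]; omega⟩
  · exact ⟨2, -10, by simp [h5_S], by simp only [h5_U]; omega⟩
  · exact ⟨3, 5, by simp [h5_S], by simp only [h5_U]; omega⟩
  · exact ⟨2, -2, by simp [h5_S], by simp only [h5_U]; omega⟩

private theorem h5_ex16 (n : ℕ) (x : ℤ) (hx : x % 18 = 16) : ∃ g : Fin 4, ∃ a ∈ h5_S g, h5_U n g (x - a) := by
  have h : x ≤ -2 ∨ (16 ≤ x ∧ x < 16 + 18 * (n : ℤ)) ∨ 16 + 18 * (n : ℤ) ≤ x := by omega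
  rcases h with h | h | h
  · exact ⟨0, 3, by simp [h5_S], by simp only [h5_U]; omega⟩
  · exact ⟨0, 2, by simp [h5_S], by simp only [h5_U]; omega⟩
  · exact ⟨2, -10, by simp [h5_S], by simp only [h5_U]; omega⟩

private theorem h5_ex17 (n : ℕ) (x : ℤ) (hx : x % 18 = 17) : ∃ g : Fin 4, ∃ a ∈ h5_S g, h5_U n g (x - a) := by
  have h : x ≤ -1 ∨ (17 ≤ x ∧ x < 17 + 18 * (n : ℤ)) ∨ x = 17 + 18 * (n : ℤ) ∨ 35 + 18 * (n : ℤ) ≤ x := by omega
  rcases h with h | h | h | h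
  · exact ⟨0, 4, by simp [h5_S], by simp only [h5_U]; omega⟩
  · exact ⟨0, 3, by simp [h5_S], by simp only [h5_U]; omega⟩
  · exact ⟨3, 7, by simp [h5_S], by simp only [h5_U]; omega⟩
  · exact ⟨2, 0, by simp [h5_S], by simp only [h5_U]; omega⟩

private theorem h5_exists (n : ℕ) (x : ℤ) : ∃ g : Fin 4, ∃ a ∈ h5_S g, h5_U n g (x - a) := by
  have h : x % 18 = 0 ∨ x % 18 = 1 ∨ x % 18 = 2 ∨ x % 18 = 3 ∨ x % 18 = 4 ∨ x % 18 = 5 ∨ x % 18 = 6 ∨ x % 18 = 7 ∨ x % 18 = 8 ∨ x % 18 = 9 ∨ x % 18 = 10 ∨ x % 18 = 11 ∨ x % 18 = 12 ∨ x % 18 = 13 ∨ x % 18 = 14 ∨ x % 18 = 15 ∨ x % 18 = 16 ∨ x % 18 = 17 := by omega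
  rcases h with h | h | h | h | h | h | h | h | h | h | h | h | h | h | h | h | h | h
  · exact h5_ex0 n x h
  · exact h5_ex1 n x h
  · exact h5_ex2 n x h
  · exact h5_ex3 n x h
  · exact h5_ex4 n x h
  · exact h5_ex5 n x h
  · exact h5_ex6 n x h
  · exact h5_ex7 n x h
  · exact h5_ex8 n x h
  · exact h5_ex9 n x h
  · exact h5_ex10 n x h
  · exact h5_ex11 n x h
  · exact h5_ex12 n x h
  · exact h5_ex13 n x h
  · exact h5_ex14 n x h
  · exact h5_ex15 n x h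
  · exact h5_ex16 n x h
  · exact h5_ex17 n x h

private theorem h5_u00 (n : ℕ) (x a b : ℤ) (ha : a ∈ h5_S 0) (hb : b ∈ h5_S 0)
    (h : h5_U n 0 (x - a)) (h1 : h5_U n 0 (x - b)) : a = b := by
  simp only [h5_S, List.mem_cons, List.not_mem_nil, or_false] at ha hb
  simp only [h5_U] at h h1
  rcases ha with rfl | rfl | rfl | rfl | rfl | rfl | rfl | rfl | rfl <;>
  rcases hb with rfl | rfl | rfl | rfl | rfl | rfl | rfl | rfl | rfl <;>
  first | rfl | (exfalso; omega)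

private theorem h5_u01 (n : ℕ) (x a b : ℤ) (ha : a ∈ h5_S 0) (hb : b ∈ h5_S 1)
    (h : h5_U n 0 (x - a)) (h1 : h5_U n 1 (x - b)) : False := by
  simp only [h5_S, List.mem_cons, List.not_mem_nil, or_false] at ha hb
  simp only [h5_U] at h h1
  rcases ha with rfl | rfl | rfl | rfl | rfl | rfl | rfl | rfl | rfl <;>
  rcases hb with rfl | rfl | rfl | rfl | rfl | rfl | rfl | rfl | rfl <;>
  omega

private theorem h5_u02 (n : ℕ) (x a b : ℤ) (ha : a ∈ h5_S 0) (hb : b ∈ h5_S 2)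
    (h : h5_U n 0 (x - a)) (h1 : h5_U n 2 (x - b)) : False := by
  simp only [h5_S, List.mem_cons, List.not_mem_nil, or_false] at ha hb
  simp only [h5_U] at h h1
  rcases ha with rfl | rfl | rfl | rfl | rfl | rfl | rfl | rfl | rfl <;>
  rcases hb with rfl | rfl | rfl | rfl | rfl | rfl | rfl | rfl | rfl <;>
  omega

private theorem h5_u03 (n : ℕ) (x a b : ℤ) (ha : a ∈ h5_S 0) (hb : b ∈ h5_S 3)
    (h : h5_U n 0 (x - a)) (h1 : h5_U n 3 (x - b)) : False := by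
  simp only [h5_S, List.mem_cons, List.not_mem_nil, or_false] at ha hb
  simp only [h5_U] at h h1
  rcases ha with rfl | rfl | rfl | rfl | rfl | rfl | rfl | rfl | rfl <;>
  rcases hb with rfl | rfl | rfl | rfl | rfl | rfl | rfl | rfl | rfl <;>
  omega

private theorem h5_u11 (n : ℕ) (x a b : ℤ) (ha : a ∈ h5_S 1) (hb : b ∈ h5_S 1)
    (h : h5_U n 1 (x - a)) (h1 : h5_U n 1 (x - b)) : a = b := by
  simp only [h5_S, List.mem_cons, List.not_mem_nil, or_false] at ha hb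
  simp only [h5_U] at h h1
  rcases ha with rfl | rfl | rfl | rfl | rfl | rfl | rfl | rfl | rfl <;>
  rcases hb with rfl | rfl | rfl | rfl | rfl | rfl | rfl | rfl | rfl <;>
  first | rfl | (exfalso; omega)

private theorem h5_u12 (n : ℕ) (x a b : ℤ) (ha : a ∈ h5_S 1) (hb : b ∈ h5_S 2)
    (h : h5_U n 1 (x - a)) (h1 : h5_U n 2 (x - b)) : False := by
  simp only [h5_S, List.mem_cons, List.not_mem_nil, or_false] at ha hb
  simp only [h5_U] at h h1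
  rcases ha with rfl | rfl | rfl | rfl | rfl | rfl | rfl | rfl | rfl <;>
  rcases hb with rfl | rfl | rfl | rfl | rfl | rfl | rfl | rfl | rfl <;>
  omega

private theorem h5_u13 (n : ℕ) (x a b : ℤ) (ha : a ∈ h5_S 1) (hb : b ∈ h5_S 3)
    (h : h5_U n 1 (x - a)) (h1 : h5_U n 3 (x - b)) : False := by
  simp only [h5_S, List.mem_cons, List.not_mem_nil, or_false] at ha hb
  simp only [h5_U] at h h1
  rcases ha with rfl | rfl | rfl | rfl | rfl | rfl | rfl | rfl | rfl <;>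
  rcases hb with rfl | rfl | rfl | rfl | rfl | rfl | rfl | rfl | rfl <;>
  omega

private theorem h5_u22 (n : ℕ) (x a b : ℤ) (ha : a ∈ h5_S 2) (hb : b ∈ h5_S 2)
    (h : h5_U n 2 (x - a)) (h1 : h5_U n 2 (x - b)) : a = b := by
  simp only [h5_S, List.mem_cons, List.not_mem_nil, or_false] at ha hb
  simp only [h5_U] at h h1
  rcases ha with rfl | rfl | rfl | rfl | rfl | rfl | rfl | rfl | rfl <;>
  rcases hb with rfl | rfl | rfl | rfl | rfl | rfl | rfl | rfl | rfl <;>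
  first | rfl | (exfalso; omega)

private theorem h5_u23 (n : ℕ) (x a b : ℤ) (ha : a ∈ h5_S 2) (hb : b ∈ h5_S 3)
    (h : h5_U n 2 (x - a)) (h1 : h5_U n 3 (x - b)) : False := by
  simp only [h5_S, List.mem_cons, List.not_mem_nil, or_false] at ha hb
  simp only [h5_U] at h h1
  rcases ha with rfl | rfl | rfl | rfl | rfl | rfl | rfl | rfl | rfl <;>
  rcases hb with rfl | rfl | rfl | rfl | rfl | rfl | rfl | rfl | rfl <;>
  omega

private theorem h5_u33 (n : ℕ) (x a b : ℤ) (ha : a ∈ h5_S 3) (hb : b ∈ h5_S 3)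
    (h : h5_U n 3 (x - a)) (h1 : h5_U n 3 (x - b)) : a = b := by
  simp only [h5_S, List.mem_cons, List.not_mem_nil, or_false] at ha hb
  simp only [h5_U] at h h1
  rcases ha with rfl | rfl | rfl | rfl | rfl | rfl | rfl | rfl | rfl <;>
  rcases hb with rfl | rfl | rfl | rfl | rfl | rfl | rfl | rfl | rfl <;>
  first | rfl | (exfalso; omega)

private theorem h5_unique (n : ℕ) (x a b : ℤ) (g k : Fin 4) (ha : a ∈ h5_S g) (hb : b ∈ h5_S k)
    (h : h5_U n g (x - a)) (h1 : h5_U n k (x - b)) : g = k ∧ a = b := by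
  have key : ∀ i : Fin 4, i = 0 ∨ i = 1 ∨ i = 2 ∨ i = 3 := by decide
  rcases key g with rfl | rfl | rfl | rfl <;> rcases key k with rfl | rfl | rfl | rfl
  · exact ⟨rfl, h5_u00 n x a b ha hb h h1⟩
  · exact (h5_u01 n x a b ha hb h h1).elim
  · exact (h5_u02 n x a b ha hb h h1).elim
  · exact (h5_u03 n x a b ha hb h h1).elim
  · exact (h5_u01 n x b a hb ha h1 h).elim
  · exact ⟨rfl, h5_u11 n x a b ha hb h h1⟩
  · exact (h5_u12 n x a b ha hb h h1).elim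
  · exact (h5_u13 n x a b ha hb h h1).elim
  · exact (h5_u02 n x b a hb ha h1 h).elim
  · exact (h5_u12 n x b a hb ha h1 h).elim
  · exact ⟨rfl, h5_u22 n x a b ha hb h h1⟩
  · exact (h5_u23 n x a b ha hb h h1).elim
  · exact (h5_u03 n x b a hb ha h1 h).elim
  · exact (h5_u13 n x b a hb ha h1 h).elim
  · exact (h5_u23 n x b a hb ha h1 h).elim
  · exact ⟨rfl, h5_u33 n x a b ha hb h h1⟩

private theorem h5_mem_S : ∀ g : Fin 4, ∀ f ∈ Fg g, h5_u f ∈ h5_S g := by decide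

private theorem h5_of_S : ∀ g : Fin 4, ∀ a ∈ h5_S g, ∃ f ∈ Fg g, h5_u f = a := by decide

private theorem h5_inj : ∀ g : Fin 4, ∀ f ∈ Fg g, ∀ k ∈ Fg g, h5_u f = h5_u k → f = k := by decide

private theorem h5_u_sub (p q : ℤ × ℤ) : h5_u (p - q) = h5_u p - h5_u q := by
  simp only [h5_u, Prod.fst_sub, Prod.snd_sub]
  ring

private theorem h5_u_add (p q : ℤ × ℤ) : h5_u (p + q) = h5_u p + h5_u q := by
  simp only [h5_u, Prod.fst_add, Prod.snd_add]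
  ring

theorem h5_tiling (n : ℕ) : Tiling (h5_P n) := by
  intro c
  obtain ⟨g, a, ha, hU⟩ := h5_exists n (h5_u c)
  obtain ⟨f, hf, rfl⟩ := h5_of_S g a ha
  refine ⟨(g, c - f), ⟨?_, ?_⟩, ?_⟩
  · change h5_U n g (h5_u (c - f))
    rw [h5_u_sub]
    exact hU
  · change c - (c - f) ∈ Fg g
    rw [sub_sub_cancel]
    exact hf
  · rintro ⟨k, p⟩ ⟨h1, h2⟩
    change h5_U n k (h5_u p) at h1
    change c - p ∈ Fg k at h2
    have h3 : h5_U n k (h5_u c - h5_u (c - p)) := by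
      rw [h5_u_sub, sub_sub_cancel]
      exact h1
    obtain ⟨h4, h5⟩ := h5_unique n (h5_u c) _ _ g k (h5_mem_S g f hf) (h5_mem_S k _ h2) hU h3
    subst h4
    have h6 : f = c - p := h5_inj g f hf _ h2 h5
    rw [h6, sub_sub_cancel]

private theorem h5_rt2 (p : ℤ × ℤ) : rt^[2] p = -p := by
  obtain ⟨a, b⟩ := p
  simp [rt]

private theorem h5_act0 (z : ℤ × ℤ) (g : Fin 4) (p : ℤ × ℤ) : act 0 z (g, p) = (g, p + z) := by
  simp [act]

private theorem h5_act2 (z : ℤ × ℤ) (g : Fin 4) (p : ℤ × ℤ) : act 2 z (g, p) = (g + 2, -p + z) := by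
  change (g + 2, rt^[2] p + z) = (g + 2, -p + z)
  rw [h5_rt2]

private theorem h5_act1 (z : ℤ × ℤ) (g : Fin 4) (p : ℤ × ℤ) :
    act 1 z (g, p) = (g + 1, (-p.2, p.1) + z) := rfl

private theorem h5_act3 (z : ℤ × ℤ) (g : Fin 4) (p : ℤ × ℤ) :
    act 3 z (g, p) = (g + 3, (p.2, -p.1) + z) := by
  change (g + 3, rt^[3] p + z) = _
  congr 2
  obtain ⟨a, b⟩ := p
  simp [rt]

private theorem h5_ineq (m n : ℕ) (hmn : m ≠ n) (k : Fin 4) (z : ℤ × ℤ)
    (h : h5_P n = act k z '' h5_P m) : False := by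
  have key : ∀ i : Fin 4, i = 0 ∨ i = 1 ∨ i = 2 ∨ i = 3 := by decide
  have hm : ∀ q ∈ h5_P m, act k z q ∈ h5_P n := by
    intro q hq
    rw [h]
    exact ⟨q, hq, rfl⟩
  have e1 : ((1 : Fin 4), ((5, -1) : ℤ × ℤ)) ∈ h5_P m := by
    change (2 * 5 - (-1) : ℤ) = 11
    norm_num
  have e3 : ((3 : Fin 4), ((5 + 9 * (m : ℤ), 0) : ℤ × ℤ)) ∈ h5_P m := by
    change (2 * (5 + 9 * (m : ℤ)) - 0 : ℤ) = 10 + 18 * (m : ℤ)
    ring
  rcases key k with rfl | rfl | rfl | rfl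
  · have h1 := hm _ e1
    have h3 := hm _ e3
    rw [h5_act0] at h1 h3
    change h5_u _ = 11 at h1
    change h5_u _ = 10 + 18 * (n : ℤ) at h3
    simp only [h5_u, Prod.fst_add, Prod.snd_add] at h1 h3
    omega
  · have a1 : ((0 : Fin 4), ((-2, 1) : ℤ × ℤ)) ∈ h5_P m := by
      change h5_U m 0 (2 * (-2) - 1)
      simp only [h5_U]
      left
      constructor <;> norm_num
    have a2 : ((0 : Fin 4), ((-1, 3) : ℤ × ℤ)) ∈ h5_P m := by
      change h5_U m 0 (2 * (-1) - 3)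
      simp only [h5_U]
      left
      constructor <;> norm_num
    have h1 := hm _ a1
    have h2 := hm _ a2
    rw [h5_act1] at h1 h2
    change h5_u _ = 11 at h1
    change h5_u _ = 11 at h2
    simp only [h5_u, Prod.fst_add, Prod.snd_add] at h1 h2
    omega
  · have h1 := hm _ e1
    have h3 := hm _ e3
    rw [h5_act2] at h1 h3
    change h5_u _ = 10 + 18 * (n : ℤ) at h1
    change h5_u _ = 11 at h3
    simp only [h5_u, Prod.fst_add, Prod.snd_add, Prod.fst_neg, Prod.snd_neg] at h1 h3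
    omega
  · have a1 : ((2 : Fin 4), ((13 + 9 * (m : ℤ), 0) : ℤ × ℤ)) ∈ h5_P m := by
      change h5_U m 2 (2 * (13 + 9 * (m : ℤ)) - 0)
      simp only [h5_U]
      right
      omega
    have a2 : ((2 : Fin 4), ((14 + 9 * (m : ℤ), 2) : ℤ × ℤ)) ∈ h5_P m := by
      change h5_U m 2 (2 * (14 + 9 * (m : ℤ)) - 2)
      simp only [h5_U]
      right
      omega
    have h1 := hm _ a1
    have h2 := hm _ a2
    rw [h5_act3] at h1 h2
    change h5_u _ = 11 at h1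
    change h5_u _ = 11 at h2
    simp only [h5_u, Prod.fst_add, Prod.snd_add] at h1 h2
    omega

/-! H5: infinitely many inequivalent exact covers -/
theorem infinite_family : ∃ P : ℕ → Set Pl, (∀ n, Tiling (P n)) ∧
    ∀ m n, m ≠ n → ¬ ∃ (k : Fin 4) (z : ℤ × ℤ), P n = act k z '' P m :=
  ⟨h5_P, h5_tiling, fun m n hmn ⟨k, z, h⟩ => h5_ineq m n hmn k z h⟩

end AlefT
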