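import Pool.Agent.AlefT.Lat
import Pool.Agent.AlefT.PlusLat
import Pool.Agent.AlefT.IsomPlus

/-!
# Isometric tilings come from equivalent exact covers
-/

set_option autoImplicit false

namespace AlefT

open TilDich

/-- monohedral tilings by pluses with two neighbours of the lattice are the lattice tiling -/
theorem mono_lattice {𝒯 : Set (Set (Eu 2))} (h : IsMono plusF 𝒯) (p : ℤ × ℤ)
    (h0 : pls p ∈ 𝒯) (h1 : pls (p + (0, 1)) ∈ 𝒯) : 𝒯 = Set.range pls := by
  obtain ⟨v, hv⟩ : ∃ v, v = zz (Av p) := ⟨_, rfl⟩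
  have hpls : pls p = (fun x => x + v) '' body plusF := by rw [hv]; rfl
  have hm := h.image (IsometryEquiv.addRight (-v))
  have e0 : ∀ B : Set (Eu 2), (IsometryEquiv.addRight v) '' ((IsometryEquiv.addRight (-v)) '' B) = B := by
    intro B
    rw [Set.image_image]
    simp
  have hb : body plusF ∈ (fun A => (IsometryEquiv.addRight (-v)) '' A) '' 𝒯 := by
    refine ⟨pls p, h0, ?_⟩
    show (IsometryEquiv.addRight (-v)) '' (pls p) = body plusF
    rw [hpls, Set.image_image]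
    simp
  have htr : IsTr plusF 𝒯 := by
    refine ⟨?_, h.2.1, h.2.2⟩
    intro B hB
    obtain ⟨w, hw⟩ := square_core plusF_nonempty plus_square hm hb
      ((IsometryEquiv.addRight (-v)) '' B) ⟨B, hB, rfl⟩
    refine ⟨w + v, ?_⟩
    have e1 := e0 B
    rw [hw, Set.image_image] at e1
    rw [← e1]
    refine Set.image_congr fun x _ => ?_
    show x + w + v = x + (w + v)
    rw [add_assoc]
  have hho := ho_of_tr plusF_nonempty htr
  have a0 : v ∈ {v | tile plusF v ∈ 𝒯} := by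
    show tile plusF v ∈ 𝒯
    rw [hv]
    exact h0
  have a1 : v + zz (Av (0, 1)) ∈ {v | tile plusF v ∈ 𝒯} := by
    show tile plusF (v + zz (Av (0, 1))) ∈ 𝒯
    rw [hv, ← zz_Av_add]
    exact h1
  have hP := plus_lattice hho v a0 a1
  rw [← tile_positions htr, hP, range_pls]
  congr 1
  ext x
  constructor
  · rintro ⟨z, rfl⟩
    refine ⟨p + z, ?_⟩
    show zz (Av (p + z)) = v + zz (Av z)
    rw [hv, zz_Av_add]
  · rintro ⟨z, rfl⟩
    refine ⟨z - p, ?_⟩
    show zz (Av z) = v + zz (Av (z - p))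
    rw [hv, ← zz_Av_add, add_sub_cancel]

private theorem iso_nb : ∀ g : Fin 4, ∃ f ∈ Fg g, f + (0, 1) ∈ Fg g := by
  decide +kernel

private theorem iso_Fg : ∀ g k : Fin 4, Fg (g + k) = (Fg g).map (rt^[k.val]) := by
  decide +kernel

theorem rt_add (p q : ℤ × ℤ) : rt (p + q) = rt p + rt q := by
  simp [rt]
  ring

theorem rt_iter_add (k : ℕ) (p q : ℤ × ℤ) : rt^[k] (p + q) = rt^[k] p + rt^[k] q := by
  induction k with
  | zero => rfl
  | succ k ih =>
    rw [Function.iterate_succ_apply', Function.iterate_succ_apply', Function.iterate_succ_apply',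
      ih, rt_add]

/-- the image of a tile under an isometry acting on the pluses -/
theorem image_TT {g : Eu 2 ≃ᵢ Eu 2} {k : Fin 4} {z : ℤ × ℤ}
    (h : ∀ p : ℤ × ℤ, g '' pls p = pls (rt^[k.val] p + z)) (q : Pl) :
    g '' TT q = TT (act k z q) := by
  ext x
  simp only [TT, Set.image_iUnion, Set.mem_iUnion, act, iso_Fg, List.mem_map]
  constructor
  · rintro ⟨f, hf, hx⟩
    refine ⟨rt^[k.val] f, ⟨f, hf, rfl⟩, ?_⟩
    rw [h, rt_iter_add] at hx
    have e : rt^[k.val] q.2 + z + rt^[k.val] f = rt^[k.val] q.2 + rt^[k.val] f + z := by abel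
    rw [e]
    exact hx
  · rintro ⟨_, ⟨f, hf, rfl⟩, hx⟩
    refine ⟨f, hf, ?_⟩
    rw [h, rt_iter_add]
    have e : rt^[k.val] q.2 + z + rt^[k.val] f = rt^[k.val] q.2 + rt^[k.val] f + z := by abel
    rw [← e]
    exact hx

private theorem iso_interior (g : Eu 2 ≃ᵢ Eu 2) (A : Set (Eu 2)) :
    interior (g '' A) = g '' interior A :=
  (g.toHomeomorph.image_interior A).symm

/-- if an isometry maps a tile to a tile, it maps the pluses outside of the tile to pluses -/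
theorem iso_mixed (g : Eu 2 ≃ᵢ Eu 2) (q q' : Pl) (h : TT q' = g '' TT q) (p : ℤ × ℤ)
    (hp : p ∉ cells q) : ∃ z, g '' pls p = pls z := by
  obtain ⟨𝒯, h𝒯⟩ : ∃ 𝒯 : Set (Set (Eu 2)), 𝒯 = (fun A => g '' A) '' (pls '' (cells q)ᶜ) ∪
    pls '' cells q' := ⟨_, rfl⟩
  have hg := lattice_mono.image g
  have hcross : ∀ a ∉ cells q, ∀ b ∈ cells q', Disjoint (interior (g '' pls a)) (pls b) := by
    intro a ha b hb
    rw [Set.disjoint_left, iso_interior]
    rintro _ ⟨y, hy, rfl⟩ hyb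
    have h1 := (mem_cells_iff q' b).1 hb hyb
    rw [h] at h1
    obtain ⟨y', hy', he⟩ := h1
    have h2 : y' = y := g.injective he
    rw [h2, TT_eq] at hy'
    simp only [Set.mem_iUnion] at hy'
    obtain ⟨c, hc, hyc⟩ := hy'
    have hne : a ≠ c := by
      rintro rfl
      exact ha hc
    exact Set.disjoint_left.1 (int_disj hne) hy hyc
  have hmono : IsMono plusF 𝒯 := by
    refine ⟨?_, ?_, ?_⟩
    · intro A hA
      rw [h𝒯] at hA
      rcases hA with ⟨_, ⟨a, _, rfl⟩, rfl⟩ | ⟨b, _, rfl⟩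
      · exact hg.1 _ ⟨pls a, ⟨a, rfl⟩, rfl⟩
      · exact lattice_mono.1 _ ⟨b, rfl⟩
    · rw [Set.eq_univ_iff_forall]
      intro x
      have h1 : g.symm x ∈ ⋃₀ (Set.range pls) := by
        rw [lattice_mono.2.1]
        trivial
      obtain ⟨_, ⟨a, rfl⟩, ha⟩ := h1
      by_cases hc : a ∈ cells q
      · have h2 : x ∈ TT q' := by
          rw [h]
          exact ⟨g.symm x, (mem_cells_iff q a).1 hc ha, g.apply_symm_apply x⟩
        rw [TT_eq] at h2
        simp only [Set.mem_iUnion] at h2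
        obtain ⟨b, hb, hx⟩ := h2
        refine ⟨pls b, ?_, hx⟩
        rw [h𝒯]
        exact Or.inr ⟨b, hb, rfl⟩
      · refine ⟨g '' pls a, ?_, g.symm x, ha, g.apply_symm_apply x⟩
        rw [h𝒯]
        exact Or.inl ⟨pls a, ⟨a, hc, rfl⟩, rfl⟩
    · intro A hA B hB hne
      rw [h𝒯] at hA hB
      rcases hA with ⟨_, ⟨a, ha, rfl⟩, rfl⟩ | ⟨a, ha, rfl⟩
      · rcases hB with ⟨_, ⟨b, hb, rfl⟩, rfl⟩ | ⟨b, hb, rfl⟩
        · exact hg.2.2 ⟨pls a, ⟨a, rfl⟩, rfl⟩ ⟨pls b, ⟨b, rfl⟩, rfl⟩ hne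
        · exact (hcross a ha b hb).mono_right interior_subset
      · rcases hB with ⟨_, ⟨b, hb, rfl⟩, rfl⟩ | ⟨b, hb, rfl⟩
        · exact ((hcross b hb a ha).mono_right interior_subset).symm
        · exact lattice_mono.2.2 ⟨a, rfl⟩ ⟨b, rfl⟩ hne
  obtain ⟨f, hf, hf1⟩ := iso_nb q'.1
  have m0 : pls (q'.2 + f) ∈ 𝒯 := by
    rw [h𝒯]
    exact Or.inr ⟨_, mem_cells_add.2 hf, rfl⟩
  have m1 : pls (q'.2 + f + (0, 1)) ∈ 𝒯 := by
    rw [h𝒯, add_assoc]
    exact Or.inr ⟨_, mem_cells_add.2 hf1, rfl⟩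
  have hall := mono_lattice hmono _ m0 m1
  have h3 : g '' pls p ∈ 𝒯 := by
    rw [h𝒯]
    exact Or.inl ⟨pls p, ⟨p, hp, rfl⟩, rfl⟩
  rw [hall] at h3
  obtain ⟨z, hz⟩ := h3
  exact ⟨z, hz.symm⟩

theorem disc_of_isom {P P' : Set Pl} (h : Tiling P) (_ : Tiling P') (g : Eu 2 ≃ᵢ Eu 2)
    (hg : realize P' = (fun A => g '' A) '' realize P) :
    ∃ (k : Fin 4) (z : ℤ × ℤ), P' = act k z '' P := by
  have hex : ∀ q ∈ P, ∃ q', TT q' = g '' TT q := by
    intro q hq
    have h1 : g '' TT q ∈ realize P' := by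
      rw [hg]
      exact ⟨TT q, ⟨q, hq, rfl⟩, rfl⟩
    obtain ⟨q', _, hq'⟩ := h1
    exact ⟨q', hq'⟩
  have hall : ∀ p : ℤ × ℤ, ∃ z, g '' pls p = pls z := by
    intro p
    obtain ⟨q1, ⟨hq1, hp1⟩, hu1⟩ := h p
    obtain ⟨c, hc⟩ : ∃ c, c ∉ cells q1 := (cells_finite q1).exists_notMem
    obtain ⟨q2, ⟨hq2, hc2⟩, _⟩ := h c
    have hne : p ∉ cells q2 := by
      intro hp2
      have h1 := hu1 q2 ⟨hq2, hp2⟩
      rw [h1] at hc2
      exact hc hc2
    obtain ⟨q', hq'⟩ := hex q2 hq2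
    exact iso_mixed g q2 q' hq' p hne
  obtain ⟨k, z, hkz⟩ := isom_plus g fun f _ => hall f
  refine ⟨k, z, ?_⟩
  apply TT_injective.image_injective
  have h1 : TT '' P' = (fun A => g '' A) '' (TT '' P) := hg
  rw [h1, Set.image_image, Set.image_image]
  exact Set.image_congr fun q _ => image_TT hkz q

end AlefT
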