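import Pool.Agent.AlefT.LC

/-!
# Countably many exact covers
-/

set_option autoImplicit false

namespace AlefT.H0

theorem uu_add (x y : ℤ × ℤ) : uu (x + y) = uu x + uu y := by
  unfold uu; simp only [Prod.fst_add, Prod.snd_add]; ring

/-- translate of a cover: `x ∈ tr P z ↔ x + z ∈ P` -/
def tr (P : Set Pl) (z : ℤ × ℤ) : Set Pl := {x | act 0 z x ∈ P}

theorem mem_tr (P : Set Pl) (z : ℤ × ℤ) (x : Pl) : x ∈ tr P z ↔ sh z x ∈ P := by
  show act 0 z x ∈ P ↔ _
  have : act 0 z x = sh z x := by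
    unfold act sh
    ext1
    · simp
    · rfl
  rw [this]

theorem tr_tiling {P : Set Pl} (hP : Tiling P) (z : ℤ × ℤ) : Tiling (tr P z) := hP.pre 0 z

theorem tr_inv {P : Set Pl} (hw : Inv P) (z : ℤ × ℤ) : Inv (tr P z) := by
  intro q hq
  rw [mem_tr] at hq
  have h := hw _ hq
  rw [sh_sh, sh_sh] at h
  rw [mem_tr, mem_tr, sh_sh, sh_sh, add_comm w1, add_comm (-w1)]
  exact h

/-- half turn of a cover -/
def hf (P : Set Pl) : Set Pl := {x | act 2 0 x ∈ P}

theorem mem_hf (P : Set Pl) (x : Pl) : x ∈ hf P ↔ (x.1 + 2, -x.2) ∈ P := by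
  show act 2 0 x ∈ P ↔ _
  have : act 2 0 x = (x.1 + 2, -x.2) := by
    unfold act
    ext1
    · rfl
    · show rt (rt x.2) + 0 = -x.2
      unfold rt
      ext <;> simp
  rw [this]

theorem hf_tiling {P : Set Pl} (hP : Tiling P) : Tiling (hf P) := hP.pre 2 0

theorem hf_inv {P : Set Pl} (hw : Inv P) : Inv (hf P) := by
  intro q hq
  rw [mem_hf] at hq
  have h := hw _ hq
  rw [mem_hf, mem_hf]
  unfold sh at *
  simp only at *
  refine ⟨?_, ?_⟩
  · have := h.2
    rwa [← neg_add] at this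
  · have := h.1
    rw [neg_add, neg_neg]
    exact this

theorem hf_mem {P : Set Pl} {q : Pl} (hq : q ∈ P) : (q.1 + 2, -q.2) ∈ hf P := by
  rw [mem_hf]
  simp only [neg_neg]
  have : q.1 + 2 + 2 = q.1 := by
    rw [add_assoc]
    have : (2 : Fin 4) + 2 = 0 := rfl
    rw [this, add_zero]
  rw [this]
  exact hq

/-- local consequence on the cylinder, base form -/
theorem use_c {P : Set Pl} (hP : Tiling P) (hw : Inv P) {ty : List (Fin 4)}
    (hty : ∀ q ∈ P, -170 ≤ uu q.2 → uu q.2 ≤ 170 → q.1 ∈ ty) {L : List Pl} {x : Pl} {c : List ℕ}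
    (h : chkC ty L [x] c = true) (hL : ∀ q ∈ L, q ∈ P) : x ∈ P := by
  by_contra hx
  refine refuteC h hP hw hty hL ?_
  intro q hq
  rw [List.mem_singleton] at hq
  rw [hq]; exact hx

theorem all_ty (P : Set Pl) : ∀ q ∈ P, -170 ≤ uu q.2 → uu q.2 ≤ 170 → q.1 ∈ [0, 1, 2, (3 : Fin 4)] := by
  intro q _ _ _
  have : ∀ g : Fin 4, g ∈ [0, 1, 2, (3 : Fin 4)] := by decide
  exact this q.1

theorem use_1 {P : Set Pl} (hP : Tiling P) (hw : Inv P) {p : ℤ × ℤ} (h : ((1 : Fin 4), p) ∈ P) :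
    ((0 : Fin 4), p + (-8, 0)) ∈ P ∧ ((0 : Fin 4), p + (-7, 2)) ∈ P ∧
      ((0 : Fin 4), p + (-12, 1)) ∈ P ∧ ((0 : Fin 4), p + (-11, 3)) ∈ P := by
  have hT := tr_tiling hP p
  have hI := tr_inv hw p
  have h0 : ((1 : Fin 4), ((0 : ℤ), (0 : ℤ))) ∈ tr P p := by
    rw [mem_tr]
    unfold sh
    simp only
    have : ((0 : ℤ), (0 : ℤ)) + p = p := by ext <;> simp
    rw [this]; exact h
  have hL : ∀ q ∈ [((1 : Fin 4), ((0 : ℤ), (0 : ℤ)))], q ∈ tr P p := by
    intro q hq
    rw [List.mem_singleton] at hq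
    rw [hq]; exact h0
  have a0 := use_c hT hI (all_ty _) lc_a0 hL
  have a1 := use_c hT hI (all_ty _) lc_a1 hL
  have b0 := use_c hT hI (all_ty _) lc_b0 hL
  have b1 := use_c hT hI (all_ty _) lc_b1 hL
  rw [mem_tr] at a0 a1 b0 b1
  unfold sh at a0 a1 b0 b1
  simp only at a0 a1 b0 b1
  rw [add_comm] at a0 a1 b0 b1
  exact ⟨a0, a1, b0, b1⟩

theorem use_2 {P : Set Pl} (hP : Tiling P) (hw : Inv P) {p : ℤ × ℤ} (h0 : ((0 : Fin 4), p) ∈ P)
    (h1 : ((0 : Fin 4), p + (1, 2)) ∈ P) (h2 : ((0 : Fin 4), p + (-4, 1)) ∈ P)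
    (h3 : ((0 : Fin 4), p + (-3, 3)) ∈ P) :
    ((0 : Fin 4), p + (-8, 2)) ∈ P ∧ ((0 : Fin 4), p + (-7, 4)) ∈ P := by
  have hT := tr_tiling hP p
  have hI := tr_inv hw p
  have hL : ∀ q ∈ [((0 : Fin 4), ((0 : ℤ), (0 : ℤ))), (0, (1, 2)), (0, (-4, 1)), (0, (-3, 3))],
      q ∈ tr P p := by
    intro q hq
    rw [mem_tr]
    unfold sh
    rw [add_comm]
    rcases List.mem_cons.mp hq with rfl | hq
    · simp only
      have : p + ((0 : ℤ), (0 : ℤ)) = p := by ext <;> simp
      rw [this]; exact h0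
    rcases List.mem_cons.mp hq with rfl | hq
    · exact h1
    rcases List.mem_cons.mp hq with rfl | hq
    · exact h2
    rw [List.mem_singleton] at hq
    rw [hq]; exact h3
  have c0 := use_c hT hI (all_ty _) lc_c0 hL
  have c1 := use_c hT hI (all_ty _) lc_c1 hL
  rw [mem_tr] at c0 c1
  unfold sh at c0 c1
  simp only at c0 c1
  rw [add_comm] at c0 c1
  exact ⟨c0, c1⟩

theorem use_3 {P : Set Pl} (hP : Tiling P) (hw : Inv P) {p : ℤ × ℤ} (h0 : ((0 : Fin 4), p) ∈ P)
    (hty : ∀ q ∈ P, uu p - 170 ≤ uu q.2 → uu q.2 ≤ uu p + 170 → q.1 = 0 ∨ q.1 = 2) :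
    ((0 : Fin 4), p + (18, 0)) ∈ P ∧ ((0 : Fin 4), p + (-18, 0)) ∈ P := by
  have hT := tr_tiling hP p
  have hI := tr_inv hw p
  have hL : ∀ q ∈ [((0 : Fin 4), ((0 : ℤ), (0 : ℤ)))], q ∈ tr P p := by
    intro q hq
    rw [List.mem_singleton] at hq
    rw [hq, mem_tr]
    unfold sh
    simp only
    have : ((0 : ℤ), (0 : ℤ)) + p = p := by ext <;> simp
    rw [this]; exact h0
  have hty' : ∀ q ∈ tr P p, -170 ≤ uu q.2 → uu q.2 ≤ 170 → q.1 ∈ [0, (2 : Fin 4)] := by
    intro q hq h1 h2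
    rw [mem_tr] at hq
    have h3 := hty _ hq (by show uu p - 170 ≤ uu (q.2 + p); rw [uu_add]; omega)
      (by show uu (q.2 + p) ≤ uu p + 170; rw [uu_add]; omega)
    have h4 : q.1 = 0 ∨ q.1 = 2 := h3
    rcases h4 with h4 | h4
    · rw [h4]; decide
    · rw [h4]; decide
  have d0 := use_c hT hI hty' lc_d0 hL
  have d1 := use_c hT hI hty' lc_d1 hL
  rw [mem_tr] at d0 d1
  unfold sh at d0 d1
  simp only at d0 d1
  rw [add_comm] at d0 d1
  exact ⟨d0, d1⟩

/-- to the left of a tile of type 1 all tiles have type 0 -/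
theorem left {P : Set Pl} (hP : Tiling P) (hw : Inv P) {p : ℤ × ℤ} (h : ((1 : Fin 4), p) ∈ P)
    (q : Pl) (hq : q ∈ P) (hu : uu q.2 ≤ uu p - 40) : q.1 = 0 := by
  obtain ⟨a0, a1, b0, b1⟩ := use_1 hP hw h
  set r : ℤ × ℤ := p + (-8, 0) with hr
  have key : ∀ k : ℕ, (((0 : Fin 4), r + mlt k (-4, 1)) ∈ P ∧
      ((0 : Fin 4), r + mlt k (-4, 1) + (1, 2)) ∈ P) ∧
      (((0 : Fin 4), r + mlt (k + 1) (-4, 1)) ∈ P ∧
      ((0 : Fin 4), r + mlt (k + 1) (-4, 1) + (1, 2)) ∈ P) := by
    intro k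
    induction k with
    | zero =>
      have e0 : r + mlt ((0 : ℕ) : ℤ) (-4, 1) = p + (-8, 0) := by
        rw [Nat.cast_zero, mlt_zero, add_zero]
      have e1 : r + mlt (((0 : ℕ) : ℤ) + 1) (-4, 1) = p + (-12, 1) := by
        rw [Nat.cast_zero, zero_add, mlt_one, hr, add_assoc]; rfl
      rw [e0, e1]
      refine ⟨⟨a0, ?_⟩, b0, ?_⟩
      · have : p + (-8, 0) + ((1 : ℤ), (2 : ℤ)) = p + (-7, 2) := by rw [add_assoc]; rfl
        rw [this]; exact a1
      · have : p + (-12, 1) + ((1 : ℤ), (2 : ℤ)) = p + (-11, 3) := by rw [add_assoc]; rfl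
        rw [this]; exact b1
    | succ k ih =>
      obtain ⟨⟨h1, h2⟩, h3, h4⟩ := ih
      have e1 : r + mlt ((k : ℤ) + 1) (-4, 1) = r + mlt k (-4, 1) + (-4, 1) := by
        rw [mlt_succ, ← add_assoc]
      have e2 : r + mlt (k : ℤ) (-4, 1) + (-4, 1) + (1, 2) = r + mlt k (-4, 1) + (-3, 3) := by
        rw [add_assoc (r + mlt (k : ℤ) (-4, 1))]; rfl
      rw [e1] at h3 h4
      rw [e2] at h4
      have := use_2 hP hw h1 h2 h3 h4
      have e3 : r + mlt (((k + 1 : ℕ) : ℤ) + 1) (-4, 1) = r + mlt k (-4, 1) + (-8, 2) := by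
        push_cast
        rw [mlt_succ, mlt_succ, ← add_assoc, ← add_assoc, add_assoc (r + mlt (k : ℤ) (-4, 1))]
        rfl
      have e4 : r + mlt (k : ℤ) (-4, 1) + (-8, 2) + (1, 2) = r + mlt k (-4, 1) + (-7, 4) := by
        rw [add_assoc (r + mlt (k : ℤ) (-4, 1))]; rfl
      have e5 : r + mlt ((k + 1 : ℕ) : ℤ) (-4, 1) = r + mlt k (-4, 1) + (-4, 1) := by
        push_cast
        exact e1
      rw [e3, e4, e5, e2]
      exact ⟨⟨h3, h4⟩, this.1, this.2⟩
  have key2 : ∀ (k : ℕ) (n : ℤ), ((0 : Fin 4), r + mlt k (-4, 1) + mlt n (1, 2)) ∈ P := by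
    intro k n
    obtain ⟨⟨h1, h2⟩, _⟩ := key k
    rcases Int.even_or_odd' n with ⟨m, rfl | rfl⟩
    · have := hw.mlt h1 m
      unfold sh at this
      have e : mlt m w1 = mlt (2 * m) (1, 2) := by
        unfold mlt w1
        ext
        · show m * 2 = 2 * m * 1; ring
        · show m * 4 = 2 * m * 2; ring
      rw [e] at this
      exact this
    · have := hw.mlt h2 m
      unfold sh at this
      have e : ((1 : ℤ), (2 : ℤ)) + mlt m w1 = mlt (2 * m + 1) (1, 2) := by
        unfold mlt w1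
        ext
        · show 1 + m * 2 = (2 * m + 1) * 1; ring
        · show 2 + m * 4 = (2 * m + 1) * 2; ring
      simp only at this
      rw [add_assoc, e] at this
      exact this
  -- cover the cell `q.2`
  have hur : uu r = uu p - 16 := by
    rw [hr, uu_add]
    have : uu ((-8 : ℤ), (0 : ℤ)) = -16 := rfl
    rw [this]; ring
  have hres : ∃ f ∈ Fg 0, ∃ k : ℕ, uu q.2 - uu f = uu r - 9 * k := by
    have h9 : ∀ x : ℤ, ∃ f ∈ Fg 0, (x - uu f) % 9 = 0 := by
      intro x
      have hx : x % 9 = 0 ∨ x % 9 = 1 ∨ x % 9 = 2 ∨ x % 9 = 3 ∨ x % 9 = 4 ∨ x % 9 = 5 ∨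
          x % 9 = 6 ∨ x % 9 = 7 ∨ x % 9 = 8 := by omega
      rcases hx with h | h | h | h | h | h | h | h | h
      · exact ⟨(0, 0), by decide, by show (x - 0) % 9 = 0; omega⟩
      · exact ⟨(5, 0), by decide, by show (x - 10) % 9 = 0; omega⟩
      · exact ⟨(3, 4), by decide, by show (x - 2) % 9 = 0; omega⟩
      · exact ⟨(2, 1), by decide, by show (x - 3) % 9 = 0; omega⟩
      · exact ⟨(3, 2), by decide, by show (x - 4) % 9 = 0; omega⟩
      · exact ⟨(0, 4), by decide, by show (x - (-4)) % 9 = 0; omega⟩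
      · exact ⟨(3, 0), by decide, by show (x - 6) % 9 = 0; omega⟩
      · exact ⟨(1, 4), by decide, by show (x - (-2)) % 9 = 0; omega⟩
      · exact ⟨(0, 1), by decide, by show (x - (-1)) % 9 = 0; omega⟩
    obtain ⟨f, hf, h9'⟩ := h9 (uu q.2 - uu r)
    have hfu := Fg_uu 0 f hf
    refine ⟨f, hf, ((uu r - uu q.2 + uu f) / 9).toNat, ?_⟩
    omega
  obtain ⟨f, hf, k, hk⟩ := hres
  have h5 : uu (q.2 - f - (r + mlt k (-4, 1))) = 0 := by
    have e1 : uu (q.2 - f - (r + mlt (k : ℤ) (-4, 1))) =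
        uu q.2 - uu f - uu r - uu (mlt (k : ℤ) (-4, 1)) := by
      unfold uu
      simp only [Prod.fst_sub, Prod.snd_sub, Prod.fst_add, Prod.snd_add]
      ring
    have e2 : uu (mlt (k : ℤ) (-4, 1)) = -9 * k := by
      unfold uu mlt
      simp only
      ring
    rw [e1, e2]
    linarith
  have h6 : q.2 - f - (r + mlt k (-4, 1)) = mlt (q.2 - f - (r + mlt k (-4, 1))).1 (1, 2) := by
    set y := q.2 - f - (r + mlt (k : ℤ) (-4, 1)) with hy
    unfold uu at h5
    unfold mlt
    ext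
    · simp
    · show y.2 = y.1 * 2
      linarith
  have h7 := key2 k (q.2 - f - (r + mlt k (-4, 1))).1
  rw [← h6] at h7
  have h8 : r + mlt (k : ℤ) (-4, 1) + (q.2 - f - (r + mlt k (-4, 1))) = q.2 - f := by abel
  rw [h8] at h7
  have h00 : ∀ g : Fin 4, ((0 : ℤ), (0 : ℤ)) ∈ Fg g := by decide
  have := hP.eq_of_common hq h7 (h00 q.1) hf (by
    show q.2 + (0, 0) = q.2 - f + f
    rw [sub_add_cancel]
    ext <;> simp)
  rw [this]

/-- to the right of a tile of type 3 all tiles have type 2 -/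
theorem right {P : Set Pl} (hP : Tiling P) (hw : Inv P) {p : ℤ × ℤ} (h : ((3 : Fin 4), p) ∈ P)
    (q : Pl) (hq : q ∈ P) (hu : uu p + 40 ≤ uu q.2) : q.1 = 2 := by
  have h1 : ((1 : Fin 4), -p) ∈ hf P := hf_mem h
  have h2 : (q.1 + 2, -q.2) ∈ hf P := hf_mem hq
  have hneg : ∀ x : ℤ × ℤ, uu (-x) = -uu x := by
    intro x; unfold uu; simp only [Prod.fst_neg, Prod.snd_neg]; ring
  have h3 := left (hf_tiling hP) (hf_inv hw) h1 _ h2 (by
    show uu (-q.2) ≤ uu (-p) - 40
    rw [hneg, hneg]; linarith)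
  have h4 : q.1 + 2 = 0 := h3
  have : ∀ g : Fin 4, g + 2 = 0 → g = 2 := by decide
  exact this _ h4

/-- the tiles of types 1 and 3 lie in a bounded strip -/
theorem bad_bounded {P : Set Pl} (hP : Tiling P) (hw : Inv P) :
    ∃ N : ℕ, ∀ q ∈ P, (q.1 = 1 ∨ q.1 = 3) → |uu q.2| ≤ N := by
  have ne0 : ∀ g : Fin 4, (g = 1 ∨ g = 3) → g ≠ 0 ∧ g ≠ 2 := by decide
  by_cases h1 : ∃ p, ((1 : Fin 4), p) ∈ P
  · obtain ⟨p, hp⟩ := h1
    have lo : ∀ q ∈ P, (q.1 = 1 ∨ q.1 = 3) → uu p - 40 < uu q.2 := by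
      intro q hq hb
      by_contra hcon
      exact (ne0 _ hb).1 (left hP hw hp q hq (not_lt.mp hcon))
    by_cases h3 : ∃ p, ((3 : Fin 4), p) ∈ P
    · obtain ⟨p', hp'⟩ := h3
      have hi : ∀ q ∈ P, (q.1 = 1 ∨ q.1 = 3) → uu q.2 < uu p' + 40 := by
        intro q hq hb
        by_contra hcon
        exact (ne0 _ hb).2 (right hP hw hp' q hq (not_lt.mp hcon))
      refine ⟨(|uu p| + |uu p'| + 40).toNat, fun q hq hb => ?_⟩
      have := lo q hq hb
      have := hi q hq hb
      rw [Int.toNat_of_nonneg (by positivity), abs_le]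
      have := neg_abs_le (uu p)
      have := le_abs_self (uu p')
      have := abs_nonneg (uu p)
      have := abs_nonneg (uu p')
      constructor <;> linarith
    · refine ⟨(|uu p| + 40).toNat, fun q hq hb => ?_⟩
      have a1 := lo q hq hb
      have a2 : uu q.2 < uu p + 40 := by
        by_contra hcon
        have hq1 : q.1 = 1 := by
          rcases hb with hb | hb
          · exact hb
          · exfalso
            exact h3 ⟨q.2, by rw [← hb]; exact hq⟩
        have hq' : ((1 : Fin 4), q.2) ∈ P := by rw [← hq1]; exact hq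
        have := left hP hw hq' _ hp (by
          show uu p ≤ uu q.2 - 40
          linarith [not_lt.mp hcon])
        exact absurd this (by show ¬ ((1 : Fin 4) = 0); decide)
      rw [Int.toNat_of_nonneg (by positivity), abs_le]
      have := neg_abs_le (uu p)
      have := le_abs_self (uu p)
      constructor <;> linarith
  · by_cases h3 : ∃ p, ((3 : Fin 4), p) ∈ P
    · obtain ⟨p, hp⟩ := h3
      have hi : ∀ q ∈ P, (q.1 = 1 ∨ q.1 = 3) → uu q.2 < uu p + 40 := by
        intro q hq hb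
        by_contra hcon
        exact (ne0 _ hb).2 (right hP hw hp q hq (not_lt.mp hcon))
      refine ⟨(|uu p| + 40).toNat, fun q hq hb => ?_⟩
      have a1 := hi q hq hb
      have a2 : uu p - 40 < uu q.2 := by
        by_contra hcon
        have hq1 : q.1 = 3 := by
          rcases hb with hb | hb
          · exfalso
            exact h1 ⟨q.2, by rw [← hb]; exact hq⟩
          · exact hb
        have hq' : ((3 : Fin 4), q.2) ∈ P := by rw [← hq1]; exact hq
        have := right hP hw hq' _ hp (by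
          show uu q.2 + 40 ≤ uu p
          linarith [not_lt.mp hcon])
        exact absurd this (by show ¬ ((3 : Fin 4) = 2); decide)
      rw [Int.toNat_of_nonneg (by positivity), abs_le]
      have := neg_abs_le (uu p)
      have := le_abs_self (uu p)
      constructor <;> linarith
    · refine ⟨0, fun q hq hb => ?_⟩
      exfalso
      rcases hb with hb | hb
      · exact h1 ⟨q.2, by rw [← hb]; exact hq⟩
      · exact h3 ⟨q.2, by rw [← hb]; exact hq⟩

/-- far away an invariant cover has period `(18,0)` -/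
theorem far {P : Set Pl} (hP : Tiling P) (hw : Inv P) : ∃ N : ℕ, ∀ q : Pl, (N : ℤ) ≤ |uu q.2| →
    q ∈ P → sh (18, 0) q ∈ P ∧ sh (-18, 0) q ∈ P := by
  obtain ⟨N, hN⟩ := bad_bounded hP hw
  refine ⟨N + 200, fun q hu hq => ?_⟩
  have hty : ∀ r ∈ P, uu q.2 - 170 ≤ uu r.2 → uu r.2 ≤ uu q.2 + 170 → r.1 = 0 ∨ r.1 = 2 := by
    intro r hr h1 h2
    by_contra hcon
    have hb : r.1 = 1 ∨ r.1 = 3 := by
      have : ∀ g : Fin 4, ¬ (g = 0 ∨ g = 2) → (g = 1 ∨ g = 3) := by decide
      exact this _ hcon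
    have h3 := hN r hr hb
    push_cast at hu
    rw [abs_le] at h3
    rcases abs_cases (uu q.2) with ⟨h4, _⟩ | ⟨h4, _⟩
    · rw [h4] at hu; omega
    · rw [h4] at hu; omega
  obtain ⟨g, p⟩ := q
  rcases hty (g, p) hq (by simp) (by simp) with hg | hg
  · have hg' : g = 0 := hg
    subst hg'
    exact use_3 hP hw hq hty
  · have hg' : g = 2 := hg
    subst hg'
    have h1 : ((0 : Fin 4), -p) ∈ hf P := hf_mem hq
    have hneg : ∀ x : ℤ × ℤ, uu (-x) = -uu x := by
      intro x; unfold uu; simp only [Prod.fst_neg, Prod.snd_neg]; ring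
    have h2 := use_3 (hf_tiling hP) (hf_inv hw) h1 (by
      intro r hr h3 h4
      rw [mem_hf] at hr
      rw [hneg] at h3 h4
      have h5 := hty _ hr (by show uu p - 170 ≤ uu (-r.2); rw [hneg]; linarith)
        (by show uu (-r.2) ≤ uu p + 170; rw [hneg]; linarith)
      have h6 : r.1 + 2 = 0 ∨ r.1 + 2 = 2 := h5
      have : ∀ g : Fin 4, (g + 2 = 0 ∨ g + 2 = 2) → (g = 0 ∨ g = 2) := by decide
      exact this _ h6)
    rw [mem_hf, mem_hf] at h2
    unfold sh
    simp only at h2 ⊢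
    have e0 : (0 : Fin 4) + 2 = 2 := rfl
    rw [e0] at h2
    constructor
    · have := h2.2
      have e : -(-p + ((-18 : ℤ), (0 : ℤ))) = p + (18, 0) := by
        ext
        · show -(-p.1 + -18) = p.1 + 18; ring
        · show -(-p.2 + 0) = p.2 + 0; ring
      rwa [e] at this
    · have := h2.1
      have e : -(-p + ((18 : ℤ), (0 : ℤ))) = p + (-18, 0) := by
        ext
        · show -(-p.1 + 18) = p.1 + -18; ring
        · show -(-p.2 + 0) = p.2 + 0; ring
      rwa [e] at this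

/-- the finitely many placements which determine a cover -/
def rep (N : ℕ) : Set Pl := {q | (0 ≤ q.2.1 ∧ q.2.1 < 2) ∧ |uu q.2| ≤ N + 40}

theorem rep_finite (N : ℕ) : (rep N).Finite := by
  refine Set.Finite.subset (Set.Finite.prod (Set.finite_univ (α := Fin 4))
    (Set.Finite.prod (Set.finite_Ico (0 : ℤ) 2) (Set.finite_Icc (-(N + 50) : ℤ) (N + 50)))) ?_
  rintro ⟨g, x, y⟩ ⟨⟨h1, h2⟩, h3⟩
  refine ⟨Set.mem_univ _, ⟨h1, h2⟩, ?_⟩
  rw [abs_le] at h3
  have e : uu ((g, x, y) : Pl).2 = 2 * x - y := rfl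
  rw [e] at h3
  simp only at h1 h2
  constructor
  · show -(N + 50 : ℤ) ≤ y
    linarith
  · show y ≤ (N + 50 : ℤ)
    linarith

/-- invariant covers of class `N` -/
def Y (N : ℕ) : Set (Set Pl) := {P | Inv P ∧ ∀ q : Pl, (N : ℤ) ≤ |uu q.2| →
    q ∈ P → sh (18, 0) q ∈ P ∧ sh (-18, 0) q ∈ P}

theorem inv_iff {P : Set Pl} (hw : Inv P) (q : Pl) (n : ℤ) : sh (mlt n w1) q ∈ P ↔ q ∈ P := by
  constructor
  · intro h
    have := hw.mlt h (-n)
    rw [sh_sh, ← mlt_add, add_neg_cancel, mlt_zero, sh_zero] at this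
    exact this
  · intro h
    exact hw.mlt h n

theorem Y_det {N : ℕ} {P P' : Set Pl} (h : P ∈ Y N) (h' : P' ∈ Y N)
    (he : ∀ q ∈ rep N, q ∈ P ↔ q ∈ P') (q : Pl) : q ∈ P ↔ q ∈ P' := by
  have key : ∀ (m : ℕ) (q : Pl), |uu q.2| ≤ N + 40 + 36 * m → (q ∈ P ↔ q ∈ P') := by
    intro m
    induction m with
    | zero =>
      intro q hq
      set n := -(q.2.1 / 2) with hn
      rw [← inv_iff h.1 q n, ← inv_iff h'.1 q n]
      apply he
      have e1 : (sh (mlt n w1) q).2.1 = q.2.1 + n * 2 := rfl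
      have e2 : uu (sh (mlt n w1) q).2 = uu q.2 := by
        show 2 * (q.2.1 + n * 2) - (q.2.2 + n * 4) = 2 * q.2.1 - q.2.2
        ring
      refine ⟨?_, ?_⟩
      · rw [e1]; omega
      · rw [e2]; simpa using hq
    | succ m ih =>
      intro q hq
      push_cast at hq
      by_cases hsmall : |uu q.2| ≤ N + 40
      · exact ih q (by
          have : (0 : ℤ) ≤ 36 * m := by positivity
          linarith)
      · rw [not_le] at hsmall
        have hu : ∀ s : ℤ, uu (sh (s, 0) q).2 = uu q.2 + 2 * s := by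
          intro s
          show 2 * (q.2.1 + s) - (q.2.2 + 0) = 2 * q.2.1 - q.2.2 + 2 * s
          ring
        have hback : ∀ s : ℤ, sh (-s, 0) (sh (s, 0) q) = q := by
          intro s
          rw [sh_sh]
          have : ((s : ℤ), (0 : ℤ)) + (-s, 0) = 0 := by ext <;> simp
          rw [this, sh_zero]
        rcases abs_cases (uu q.2) with ⟨h1, h2⟩ | ⟨h1, h2⟩
        · -- positive side: move by (-18,0)
          rw [h1] at hq hsmall
          have hs := hu (-18)
          have hih := ih (sh (-18, 0) q) (by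
            rw [hs, abs_le]; constructor <;> linarith)
          have hN : (N : ℤ) ≤ |uu q.2| := by rw [h1]; linarith
          have hN' : (N : ℤ) ≤ |uu (sh (-18, 0) q).2| := by
            rw [hs, abs_of_nonneg (by linarith)]; linarith
          have hb := hback (-18)
          rw [neg_neg] at hb
          constructor
          · intro hqP
            have := hih.mp (h.2 q hN hqP).2
            have := (h'.2 _ hN' this).1
            rwa [hb] at this
          · intro hqP
            have := hih.mpr (h'.2 q hN hqP).2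
            have := (h.2 _ hN' this).1
            rwa [hb] at this
        · rw [h1] at hq hsmall
          have hs := hu 18
          have hih := ih (sh (18, 0) q) (by
            rw [hs, abs_le]; constructor <;> linarith)
          have hN : (N : ℤ) ≤ |uu q.2| := by rw [h1]; linarith
          have hN' : (N : ℤ) ≤ |uu (sh (18, 0) q).2| := by
            rw [hs, abs_of_nonpos (by linarith)]; linarith
          have hb := hback 18
          constructor
          · intro hqP
            have := hih.mp (h.2 q hN hqP).1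
            have := (h'.2 _ hN' this).2
            rwa [hb] at this
          · intro hqP
            have := hih.mpr (h'.2 q hN hqP).1
            have := (h.2 _ hN' this).2
            rwa [hb] at this
  refine key (|uu q.2|).toNat q ?_
  have h0 := abs_nonneg (uu q.2)
  rw [Int.toNat_of_nonneg h0]
  have : (0 : ℤ) ≤ N := Nat.cast_nonneg _
  linarith

theorem Y_countable (N : ℕ) : (Y N).Countable := by
  have hfin : (Set.powerset (rep N)).Finite := (rep_finite N).finite_subsets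
  have hinj : Set.InjOn (fun P : Set Pl => P ∩ rep N) (Y N) := by
    intro P h P' h' he
    ext q
    refine Y_det h h' (fun q hq => ?_) q
    have : (q ∈ P ∩ rep N) = (q ∈ P' ∩ rep N) := by
      have he' : P ∩ rep N = P' ∩ rep N := he
      rw [he']
    constructor
    · intro hqP
      have h1 : q ∈ P ∩ rep N := ⟨hqP, hq⟩
      rw [this] at h1
      exact h1.1
    · intro hqP
      have h1 : q ∈ P' ∩ rep N := ⟨hqP, hq⟩
      rw [← this] at h1
      exact h1.1
  have : ((fun P : Set Pl => P ∩ rep N) '' Y N).Finite :=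
    hfin.subset (by rintro _ ⟨P, _, rfl⟩; exact Set.inter_subset_right)
  exact (Set.Finite.of_finite_image this hinj).countable

theorem inv_countable : {P : Set Pl | Tiling P ∧ Inv P}.Countable := by
  refine Set.Countable.mono ?_ (Set.countable_iUnion Y_countable)
  rintro P ⟨hP, hw⟩
  obtain ⟨N, hN⟩ := far hP hw
  exact Set.mem_iUnion.mpr ⟨N, hw, hN⟩

theorem countable_tilings : {P : Set Pl | Tiling P}.Countable := by
  have hinj : Function.Injective (fun P : Set Pl => {x | act 1 0 x ∈ P}) := by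
    intro P P' h
    ext q
    obtain ⟨q', rfl⟩ := act_surj 1 0 q
    have : (q' ∈ {x | act 1 0 x ∈ P}) = (q' ∈ {x | act 1 0 x ∈ P'}) := by
      have h' : {x | act 1 0 x ∈ P} = {x | act 1 0 x ∈ P'} := h
      rw [h']
    exact iff_of_eq this
  have h2 : {P : Set Pl | Tiling P ∧ ∀ q ∈ P, sh w2 q ∈ P ∧ sh (-w2) q ∈ P}.Countable := by
    refine Set.Countable.mono ?_ (inv_countable.preimage hinj)
    rintro P ⟨hP, hw⟩
    refine ⟨hP.pre 1 0, ?_⟩
    intro q hq
    have h := hw _ hq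
    have e1 : act 1 0 (sh w1 q) = sh w2 (act 1 0 q) := by
      unfold act sh
      ext1
      · rfl
      · show rt (q.2 + w1) + 0 = rt q.2 + 0 + w2
        rw [rt_add, add_zero, add_zero]
        rfl
    have e2 : act 1 0 (sh (-w1) q) = sh (-w2) (act 1 0 q) := by
      unfold act sh
      ext1
      · rfl
      · show rt (q.2 + -w1) + 0 = rt q.2 + 0 + -w2
        rw [rt_add, add_zero, add_zero]
        rfl
    refine ⟨?_, ?_⟩
    · show act 1 0 (sh w1 q) ∈ P
      rw [e1]; exact h.1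
    · show act 1 0 (sh (-w1) q) ∈ P
      rw [e2]; exact h.2
  refine Set.Countable.mono ?_ (inv_countable.union h2)
  intro P hP
  rcases invariant hP with h | h
  · exact Or.inl ⟨hP, h⟩
  · exact Or.inr ⟨hP, h⟩

end AlefT.H0

namespace AlefT

/-- there are only countably many exact covers -/
theorem countable_tilings : {P : Set Pl | Tiling P}.Countable := H0.countable_tilings

end AlefT
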