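import Pool.Agent.AlefT.Glob

/-!
# The checker for exact covers invariant under `w1`
-/

set_option autoImplicit false

namespace AlefT.H0

/-- the linear functional vanishing on `w1` -/
def uu (p : ℤ × ℤ) : ℤ := 2 * p.1 - p.2

/-- index of the class of a cell modulo `w1` -/
def idx (p : ℤ × ℤ) : ℤ := 2 * (2 * p.1 - p.2) + p.1 % 2

/-- mask of the class of a placement -/
def mkc (q : Pl) : ℕ := bits ((Fg q.1).map fun f => (idx (q.2 + f) + 500).toNat)

/-- identifier of the class of a placement -/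
def idc (q : Pl) : ℕ := 4096 * q.1.val + (idx q.2 + 500).toNat

/-- relative masks of the placements covering a cell of parity `e` -/
def KC (ty : List (Fin 4)) (e : ℤ) : List (ℕ × ℕ) :=
  ty.flatMap fun g => (Fg g).map fun f =>
    (bits ((Fg g).map fun f' =>
      (2 * (2 * (f'.1 - f.1) - (f'.2 - f.2)) + (e + (f'.1 - f.1)) % 2 - e + 100).toNat),
      4096 * g.val + (100 - 2 * (2 * f.1 - f.2) + (e - f.1) % 2 - e).toNat)

/-- invariance -/
def Inv (P : Set Pl) : Prop := ∀ q ∈ P, sh w1 q ∈ P ∧ sh (-w1) q ∈ P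

theorem Inv.mlt {P : Set Pl} (h : Inv P) {q : Pl} (hq : q ∈ P) (n : ℤ) : sh (mlt n w1) q ∈ P := by
  induction n using Int.induction_on with
  | zero => rw [mlt_zero, sh_zero]; exact hq
  | succ n ih =>
    have := (h _ ih).1
    rw [sh_sh] at this
    rw [mlt_succ]; exact this
  | pred n ih =>
    have := (h _ ih).2
    rw [sh_sh] at this
    rw [mlt_pred]; exact this

theorem idx_mlt (n : ℤ) (p : ℤ × ℤ) : idx (p + mlt n w1) = idx p := by
  unfold idx
  have e1 : (p + mlt n w1).1 = p.1 + n * 2 := rfl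
  have e2 : (p + mlt n w1).2 = p.2 + n * 4 := rfl
  rw [e1, e2]
  omega

theorem idx_eq {p p' : ℤ × ℤ} (h : idx p = idx p') : ∃ n : ℤ, p = p' + mlt n w1 := by
  unfold idx at h
  refine ⟨(p.1 - p'.1) / 2, ?_⟩
  ext
  · show p.1 = p'.1 + (p.1 - p'.1) / 2 * 2
    omega
  · show p.2 = p'.2 + (p.1 - p'.1) / 2 * 4
    omega

theorem mkc_mlt (n : ℤ) (q : Pl) : mkc (sh (mlt n w1) q) = mkc q := by
  unfold mkc sh
  congr 1
  apply List.map_congr_left
  intro f _
  simp only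
  rw [add_right_comm, idx_mlt]

theorem Fg_uu (g : Fin 4) (f : ℤ × ℤ) (hf : f ∈ Fg g) : -11 ≤ uu f ∧ uu f ≤ 11 := by
  revert f
  have : ∀ g : Fin 4, ∀ f ∈ Fg g, -11 ≤ uu f ∧ uu f ≤ 11 := by decide
  exact this g

/-- codes of valid cells -/
def vldc (c : ℕ) : Prop := ∃ p : ℤ × ℤ, -150 ≤ uu p ∧ uu p ≤ 150 ∧ (c : ℤ) = idx p + 400

/-- Boolean test -/
def vldcb (c : ℕ) : Bool := Nat.ble 100 c && Nat.ble c 700

theorem vldc_of {c : ℕ} (h : vldcb c = true) : vldc c := by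
  unfold vldcb at h
  simp only [Bool.and_eq_true, Nat.ble_eq] at h
  refine ⟨(((c : ℤ) - 400) % 2, 2 * (((c : ℤ) - 400) % 2) - ((c : ℤ) - 400) / 2), ?_, ?_, ?_⟩
  · unfold uu; simp only; omega
  · unfold uu; simp only; omega
  · unfold idx; simp only; omega

theorem cyl_sound {P : Set Pl} (hP : Tiling P) (hw : Inv P) (ty : List (Fin 4))
    (hty : ∀ q ∈ P, -170 ≤ uu q.2 → uu q.2 ≤ 170 → q.1 ∈ ty) (FP : List Pl)
    (hFbx : ∀ q ∈ FP, -200 ≤ uu q.2 ∧ uu q.2 ≤ 200)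
    (hF : ∀ q ∈ FP, q ∉ P) (cert st : List ℕ) (hc : ∀ c ∈ cert, vldcb c = true)
    (hr : run (fun c => shf c (KC ty ((c : ℤ) % 2))) 100 (FP.map idc) cert st = true)
    (occ : ℕ) (hocc : occ ∈ st) (L : List Pl)
    (hL : ∀ q ∈ L, q ∈ P ∧ -170 ≤ uu q.2 ∧ uu q.2 ≤ 170)
    (h : occ = uni (L.map mkc)) : False := by
  set Tr : Set ℕ := {m | ∃ q ∈ P, (-170 ≤ uu q.2 ∧ uu q.2 ≤ 170) ∧ m = mkc q} with hTr
  have huadd : ∀ x y : ℤ × ℤ, uu (x + y) = uu x + uu y := by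
    intro x y; unfold uu; simp only [Prod.fst_add, Prod.snd_add]; ring
  have hidx : ∀ x : ℤ × ℤ, idx x = 2 * uu x + x.1 % 2 := fun x => rfl
  refine run_sound _ 100 (FP.map idc) Tr vldc ?_ ?_ cert st (fun c hcc => vldc_of (hc c hcc)) hr
    occ hocc (L.map mkc) ?_ h
  · rintro c ⟨p, hp1, hp2, hcp⟩
    obtain ⟨q, ⟨hq, hqc⟩, _⟩ := hP p
    set f := p - q.2 with hf
    have hfb := Fg_uu q.1 f hqc
    have hfb2 := Fg_bound q.1 f hqc
    have hp3 : p = q.2 + f := by rw [hf]; abel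
    have hup : uu p = uu q.2 + uu f := by rw [hp3, huadd]
    have hqb : -170 ≤ uu q.2 ∧ uu q.2 ≤ 170 := by omega
    have hpar : (c : ℤ) % 2 = p.1 % 2 := by
      rw [hcp, hidx]; omega
    have hp1' : p.1 = q.2.1 + f.1 := by rw [hp3]; rfl
    have hmk : mkc q = bits ((Fg q.1).map fun f' =>
        (2 * (2 * (f'.1 - f.1) - (f'.2 - f.2)) + ((c : ℤ) % 2 + (f'.1 - f.1)) % 2 - (c : ℤ) % 2
          + 100).toNat) <<< c := by
      rw [bits_shift, List.map_map]
      unfold mkc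
      congr 1
      apply List.map_congr_left
      intro f' hf'
      have hfb' := Fg_uu q.1 f' hf'
      have hfb2' := Fg_bound q.1 f' hf'
      show (idx (q.2 + f') + 500).toNat = (_ : ℤ).toNat + c
      have e1 : idx (q.2 + f') = 2 * (uu q.2 + uu f') + (q.2.1 + f'.1) % 2 := by
        rw [hidx, huadd]; rfl
      have e3 : uu f' = 2 * f'.1 - f'.2 := rfl
      have e4 : uu f = 2 * f.1 - f.2 := rfl
      rw [e1]
      have e5 : (c : ℤ) = 2 * uu p + p.1 % 2 + 400 := by rw [hcp, hidx]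
      omega
    have hid : idc q = 4096 * q.1.val +
        (100 - 2 * (2 * f.1 - f.2) + ((c : ℤ) % 2 - f.1) % 2 - (c : ℤ) % 2).toNat + c := by
      unfold idc
      have e4 : uu f = 2 * f.1 - f.2 := rfl
      have e5 : (c : ℤ) = 2 * uu p + p.1 % 2 + 400 := by rw [hcp, hidx]
      have e6 := hidx q.2
      omega
    refine ⟨(mkc q, idc q), ?_, ⟨q, hq, hqb, rfl⟩, ?_, ?_⟩
    · show (mkc q, idc q) ∈ shf c (KC ty ((c : ℤ) % 2))
      rw [mem_shf]
      refine ⟨(bits ((Fg q.1).map fun f' =>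
        (2 * (2 * (f'.1 - f.1) - (f'.2 - f.2)) + ((c : ℤ) % 2 + (f'.1 - f.1)) % 2 - (c : ℤ) % 2
          + 100).toNat), 4096 * q.1.val +
        (100 - 2 * (2 * f.1 - f.2) + ((c : ℤ) % 2 - f.1) % 2 - (c : ℤ) % 2).toNat), ?_, ?_⟩
      · unfold KC
        rw [List.mem_flatMap]
        exact ⟨q.1, hty q hq hqb.1 hqb.2, List.mem_map.mpr ⟨f, hqc, rfl⟩⟩
      · rw [hmk, hid]
    · intro hmem
      obtain ⟨q0, hq0, he⟩ := List.mem_map.mp hmem
      have hb0 := hFbx q0 hq0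
      unfold idc at he
      have e6 := hidx q.2
      have e7 := hidx q0.2
      have e1 : q0.1.val = q.1.val := by omega
      have e2 : idx q0.2 = idx q.2 := by omega
      obtain ⟨n, hn⟩ := idx_eq e2
      have : q0 = sh (AlefT.H0.mlt n w1) q := by
        unfold sh
        exact Prod.ext (Fin.ext e1) hn
      exact hF q0 hq0 (this ▸ hw.mlt hq n)
    · unfold mkc
      rw [testBit_bits, List.mem_map]
      refine ⟨f, hqc, ?_⟩
      rw [← hp3]
      have e5 : (c : ℤ) = idx p + 400 := hcp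
      omega
  · rintro m ⟨q, hq, hqb, rfl⟩ m' ⟨q', hq', hqb', rfl⟩ hne
    obtain ⟨i, hi, hi'⟩ := exists_bit hne
    unfold mkc at hi hi'
    rw [testBit_bits, List.mem_map] at hi hi'
    obtain ⟨f, hf, hfi⟩ := hi
    obtain ⟨f', hf', hfi'⟩ := hi'
    have b1 := Fg_uu q.1 f hf
    have b2 := Fg_uu q'.1 f' hf'
    have e1 := hidx (q.2 + f)
    have e2 := hidx (q'.2 + f')
    rw [huadd] at e1 e2
    have e3 : idx (q.2 + f) = idx (q'.2 + f') := by omega
    obtain ⟨n, hn⟩ := idx_eq e3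
    have h1 := hw.mlt hq' n
    have h2 : q = sh (AlefT.H0.mlt n w1) q' := by
      refine hP.eq_of_common hq h1 hf (f' := f') hf' ?_
      rw [hn]
      unfold sh
      simp only
      abel
    rw [h2, mkc_mlt]
  · intro m hm
    obtain ⟨q, hq, rfl⟩ := List.mem_map.mp hm
    exact ⟨q, (hL q hq).1, (hL q hq).2, rfl⟩

/-- Boolean check of a refutation on the cylinder -/
def chkC (ty : List (Fin 4)) (L FP : List Pl) (cert : List ℕ) : Bool :=
  L.all (fun q => decide (-170 ≤ uu q.2 ∧ uu q.2 ≤ 170)) &&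
    FP.all (fun q => decide (-200 ≤ uu q.2 ∧ uu q.2 ≤ 200)) &&
    (cert.all vldcb && run (fun c => shf c (KC ty ((c : ℤ) % 2))) 100 (FP.map idc) cert
      [uni (L.map mkc)])

theorem refuteC {ty : List (Fin 4)} {L FP : List Pl} {cert : List ℕ}
    (h : chkC ty L FP cert = true) {P : Set Pl} (hP : Tiling P) (hw : Inv P)
    (hty : ∀ q ∈ P, -170 ≤ uu q.2 → uu q.2 ≤ 170 → q.1 ∈ ty)
    (hL : ∀ q ∈ L, q ∈ P) (hF : ∀ q ∈ FP, q ∉ P) : False := by
  unfold chkC at h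
  simp only [Bool.and_eq_true, List.all_eq_true, decide_eq_true_eq] at h
  obtain ⟨⟨h1, h2⟩, h3, h4⟩ := h
  exact cyl_sound hP hw ty hty FP h2 hF cert _ h3 h4 _ List.mem_cons_self L
    (fun q hq => ⟨hL q hq, h1 q hq⟩) rfl

end AlefT.H0
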