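import Pool.Agent.AlefT.Tab

set_option autoImplicit false

namespace AlefT.H0

theorem l2_0 : chkL [(0, (0, 0)), (0, (2, 4)), (0, (-2, 6))] [(0, (-4, 2))]
    [2083, 2085, 2149, 2086, 2086, 2022] = true := by
  decide +kernel

theorem l2_1 : chkL [(0, (0, 0)), (0, (2, 4)), (0, (6, 2))] [(0, (4, -2))]
    [2342, 2340, 2403, 2210, 2344, 2407, 2339, 2530, 2471, 2278, 2083, 2275, 2210, 2340, 2343,
      2214, 2214, 2215, 2281, 2279] = true := by
  decide +kernel

theorem l2_2 : chkL [(0, (0, 0)), (0, (-2, -4)), (0, (-6, -2))] [(0, (-4, 2))]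
    [1951, 1887, 1953, 1824, 1885, 1821, 1821, 1953, 1824, 2082, 2015, 1824] = true := by
  decide +kernel

theorem l2_3 : chkL [(0, (0, 0)), (0, (-2, -4)), (0, (2, -6))] [(0, (4, -2))]
    [2078, 2205] = true := by
  decide +kernel

theorem l2_4 : chkL [(0, (0, 0)), (0, (-4, 2)), (0, (-2, 6))] [(0, (2, 4))]
    [1956, 2083] = true := by
  decide +kernel

theorem l2_5 : chkL [(0, (0, 0)), (0, (4, -2)), (0, (6, 2))] [(0, (2, 4))]
    [2337, 2273, 2339, 2210, 2271, 2207, 2207, 2339, 2210, 2468, 2401, 2210] = true := by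
  decide +kernel

theorem l2_6 : chkL [(0, (0, 0)), (0, (-4, 2)), (0, (-6, -2))] [(0, (-2, -4))]
    [1956, 1954, 2017, 1824, 1958, 2021, 1953, 2144, 2085, 1892, 1697, 1889, 1824, 1954, 1957,
      1828, 1828, 1829, 1895, 1893] = true := by
  decide +kernel

theorem l2_7 : chkL [(0, (0, 0)), (0, (4, -2)), (0, (2, -6))] [(0, (-2, -4))]
    [2205, 2207, 2271, 2208, 2208, 2144] = true := by
  decide +kernel

end AlefT.H0
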