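import Pool.Agent.AlefT.Tab

set_option autoImplicit false

namespace AlefT.H0

/-- multiples -/
def mlt (n : ℤ) (w : ℤ × ℤ) : ℤ × ℤ := (n * w.1, n * w.2)

def w1 : ℤ × ℤ := (2, 4)
def w2 : ℤ × ℤ := (-4, 2)

/-- detecting an overlap while placing tiles -/
def cfl : List Pl → List Pl → ℕ → Bool
  | [], _, _ => false
  | q :: l, seen, occ =>
    cond (decide (q ∈ seen)) (cfl l seen occ)
      (cond (Nat.beq (occ &&& mk q) 0) (cfl l (q :: seen) (occ ||| mk q)) true)

/-- the placed tiles of the crossing lemma -/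
def LL (g h : Fin 4) (d : ℤ × ℤ) : List Pl :=
  [(g, mlt (-1) w1), (g, (0, 0)), (g, mlt 1 w1), (h, d + mlt (-1) w2), (h, d), (h, d + mlt 1 w2)]

/-- the forbidden tiles of the crossing lemma -/
def FF (g h : Fin 4) (d : ℤ × ℤ) (s1 s2 : ℤ) : List Pl :=
  ([-2, -1, 0, 1, 2].map fun n => (g, mlt n w1 + mlt s2 w2)) ++
    ([-2, -1, 0, 1, 2].map fun n => (h, d + mlt n w2 + mlt s1 w1))

/-- representatives of the grid modulo `w1`, `w2` -/
def ds : List (ℤ × ℤ) :=
  [(0, 0), (-1, -1), (-1, 0), (-1, 1), (0, -1), (0, 1), (1, -1), (1, 0), (1, 1), (-2, -2), (-2, -1),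
    (-2, 0), (-2, 1), (-2, 2), (-1, -2), (-1, 2), (0, -2), (1, -2), (2, 1), (-3, -1)]

/-- certificates of the crossing lemma -/
def c3 : List (List ℕ) :=
  [[1887], [1888], [1950], [1951, 1888], [2014], [2078], [2078, 2013], [2079], [2081], [2082], [2082, 2147], [2140], [2141], [2146], [2209, 2272], [2210]]

/-- one case of the crossing lemma -/
def chk3 (g h : Fin 4) (d : ℤ × ℤ) (s1 s2 : ℤ) : Bool :=
  cfl (LL g h d) [] 0 || ((LL g h d).any fun q => decide (q ∈ FF g h d s1 s2)) ||
    c3.any fun c => chkL (LL g h d) (FF g h d s1 s2) c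

/-- all cases of the crossing lemma with given types -/
def chk3a (g h : Fin 4) : Bool :=
  ds.all fun d => [1, -1].all fun s1 => [1, -1].all fun s2 => chk3 g h d s1 s2

theorem l3_00 : chk3a 0 0 = true := by decide +kernel
theorem l3_01 : chk3a 0 1 = true := by decide +kernel
theorem l3_02 : chk3a 0 2 = true := by decide +kernel
theorem l3_03 : chk3a 0 3 = true := by decide +kernel
theorem l3_10 : chk3a 1 0 = true := by decide +kernel
theorem l3_11 : chk3a 1 1 = true := by decide +kernel
theorem l3_12 : chk3a 1 2 = true := by decide +kernel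
theorem l3_13 : chk3a 1 3 = true := by decide +kernel
theorem l3_20 : chk3a 2 0 = true := by decide +kernel
theorem l3_21 : chk3a 2 1 = true := by decide +kernel
theorem l3_22 : chk3a 2 2 = true := by decide +kernel
theorem l3_23 : chk3a 2 3 = true := by decide +kernel
theorem l3_30 : chk3a 3 0 = true := by decide +kernel
theorem l3_31 : chk3a 3 1 = true := by decide +kernel
theorem l3_32 : chk3a 3 2 = true := by decide +kernel
theorem l3_33 : chk3a 3 3 = true := by decide +kernel

theorem l3_all (g h : Fin 4) : chk3a g h = true := by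
  fin_cases g <;> fin_cases h
  · exact l3_00
  · exact l3_01
  · exact l3_02
  · exact l3_03
  · exact l3_10
  · exact l3_11
  · exact l3_12
  · exact l3_13
  · exact l3_20
  · exact l3_21
  · exact l3_22
  · exact l3_23
  · exact l3_30
  · exact l3_31
  · exact l3_32
  · exact l3_33

end AlefT.H0
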