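import Pool.Agent.AlefT.L1pp
import Pool.Agent.AlefT.L1pm
import Pool.Agent.AlefT.L1mp
import Pool.Agent.AlefT.L1mm
import Pool.Agent.AlefT.L2
import Pool.Agent.AlefT.L3

/-!
# Every exact cover is invariant under `w1` or under `w2`
-/

set_option autoImplicit false

namespace AlefT.H0

/-- shift of a placement -/
def sh (v : ℤ × ℤ) (q : Pl) : Pl := (q.1, q.2 + v)

theorem sh_sh (v w : ℤ × ℤ) (q : Pl) : sh v (sh w q) = sh (w + v) q := by
  unfold sh
  simp only [add_assoc]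

theorem sh_zero (q : Pl) : sh 0 q = q := by
  unfold sh
  simp

/-- the pattern seen from the tile `q` -/
def seen (P : Set Pl) (q : Pl) : Set Pl := {r | act q.1 q.2 r ∈ P}

theorem mem_seen (P : Set Pl) (q : Pl) (a : ℤ × ℤ) :
    ((0 : Fin 4), a) ∈ seen P q ↔ sh (rt^[q.1.val] a) q ∈ P := by
  show act q.1 q.2 (0, a) ∈ P ↔ _
  have : act q.1 q.2 (0, a) = sh (rt^[q.1.val] a) q := by
    unfold act sh
    ext1
    · simp
    · simp only; rw [add_comm]
  rw [this]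

theorem rt_iter_zero (k : ℕ) : rt^[k] (0, 0) = 0 := by
  induction k with
  | zero => rfl
  | succ k ih => rw [Function.iterate_succ_apply', ih]; rfl

theorem zero_mem_seen {P : Set Pl} {q : Pl} (hq : q ∈ P) : ((0 : Fin 4), ((0 : ℤ), (0 : ℤ))) ∈ seen P q := by
  rw [mem_seen, rt_iter_zero, sh_zero]
  exact hq

theorem seen_tiling {P : Set Pl} (hP : Tiling P) (q : Pl) : Tiling (seen P q) := hP.pre q.1 q.2

theorem l1_base {P : Set Pl} (hP : Tiling P) (h0 : ((0 : Fin 4), ((0 : ℤ), (0 : ℤ))) ∈ P) :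
    (((0 : Fin 4), w1) ∈ P ∧ ((0 : Fin 4), -w1) ∈ P) ∨
      (((0 : Fin 4), w2) ∈ P ∧ ((0 : Fin 4), -w2) ∈ P) := by
  have key : ∀ (a b : ℤ × ℤ) (c : List ℕ), chkL [(0, (0, 0))] [(0, a), (0, b)] c = true →
      ((0 : Fin 4), a) ∈ P ∨ ((0 : Fin 4), b) ∈ P := by
    intro a b c h
    by_contra hcon
    push Not at hcon
    refine refuteL h hP ?_ ?_
    · intro q hq
      rw [List.mem_singleton] at hq
      rw [hq]; exact h0
    · intro q hq
      rcases List.mem_cons.mp hq with rfl | hq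
      · exact hcon.1
      · rw [List.mem_singleton] at hq
        rw [hq]; exact hcon.2
  have k1 := key _ _ _ l1pp
  have k2 := key _ _ _ l1pm
  have k3 := key _ _ _ l1mp
  have k4 := key _ _ _ l1mm
  have e1 : w1 = (2, 4) := rfl
  have e2 : w2 = (-4, 2) := rfl
  have e3 : -w1 = (-2, -4) := rfl
  have e4 : -w2 = (4, -2) := rfl
  rw [e1, e2] at *
  rw [e3, e4]
  tauto

theorem l1_all {P : Set Pl} (hP : Tiling P) {q : Pl} (hq : q ∈ P) :
    (sh w1 q ∈ P ∧ sh (-w1) q ∈ P) ∨ (sh w2 q ∈ P ∧ sh (-w2) q ∈ P) := by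
  have h := l1_base (seen_tiling hP q) (zero_mem_seen hq)
  rw [mem_seen, mem_seen, mem_seen, mem_seen] at h
  obtain ⟨g, p⟩ := q
  fin_cases g
  · exact h
  · have e1 : rt^[1] w1 = w2 := rfl
    have e2 : rt^[1] w2 = -w1 := rfl
    have e3 : rt^[1] (-w1) = -w2 := rfl
    have e4 : rt^[1] (-w2) = w1 := rfl
    simp only at h ⊢
    change (sh (rt^[1] w1) _ ∈ P ∧ sh (rt^[1] (-w1)) _ ∈ P) ∨
      (sh (rt^[1] w2) _ ∈ P ∧ sh (rt^[1] (-w2)) _ ∈ P) at h
    rw [e1, e2, e3, e4] at h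
    tauto
  · have e1 : rt^[2] w1 = -w1 := rfl
    have e2 : rt^[2] w2 = -w2 := rfl
    have e3 : rt^[2] (-w1) = w1 := rfl
    have e4 : rt^[2] (-w2) = w2 := rfl
    change (sh (rt^[2] w1) _ ∈ P ∧ sh (rt^[2] (-w1)) _ ∈ P) ∨
      (sh (rt^[2] w2) _ ∈ P ∧ sh (rt^[2] (-w2)) _ ∈ P) at h
    rw [e1, e2, e3, e4] at h
    simp only at h ⊢
    tauto
  · have e1 : rt^[3] w1 = -w2 := rfl
    have e2 : rt^[3] w2 = w1 := rfl
    have e3 : rt^[3] (-w1) = w2 := rfl
    have e4 : rt^[3] (-w2) = -w1 := rfl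
    change (sh (rt^[3] w1) _ ∈ P ∧ sh (rt^[3] (-w1)) _ ∈ P) ∨
      (sh (rt^[3] w2) _ ∈ P ∧ sh (rt^[3] (-w2)) _ ∈ P) at h
    rw [e1, e2, e3, e4] at h
    simp only at h ⊢
    tauto

/-- the eight pairs of perpendicular periods -/
def PP : List ((ℤ × ℤ) × (ℤ × ℤ)) :=
  [(w1, w2), (w1, -w2), (-w1, w2), (-w1, -w2), (w2, w1), (-w2, w1), (w2, -w1), (-w2, -w1)]

theorem l2_base {P : Set Pl} (hP : Tiling P) (h0 : ((0 : Fin 4), ((0 : ℤ), (0 : ℤ))) ∈ P)
    (ab : (ℤ × ℤ) × (ℤ × ℤ)) (hab : ab ∈ PP) (h1 : ((0 : Fin 4), ab.1) ∈ P)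
    (h2 : ((0 : Fin 4), ab.1 + ab.2) ∈ P) : ((0 : Fin 4), ab.2) ∈ P := by
  have key : ∀ (a s b : ℤ × ℤ) (c : List ℕ), chkL [(0, (0, 0)), (0, a), (0, s)] [(0, b)] c = true →
      ((0 : Fin 4), a) ∈ P → ((0 : Fin 4), s) ∈ P → ((0 : Fin 4), b) ∈ P := by
    intro a s b c h ha hs
    by_contra hcon
    refine refuteL h hP ?_ ?_
    · intro q hq
      rcases List.mem_cons.mp hq with rfl | hq
      · exact h0
      rcases List.mem_cons.mp hq with rfl | hq
      · exact ha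
      · rw [List.mem_singleton] at hq
        rw [hq]; exact hs
    · intro q hq
      rw [List.mem_singleton] at hq
      rw [hq]; exact hcon
  unfold PP at hab
  fin_cases hab
  · exact key _ _ _ _ l2_0 h1 h2
  · exact key _ _ _ _ l2_1 h1 h2
  · exact key _ _ _ _ l2_2 h1 h2
  · exact key _ _ _ _ l2_3 h1 h2
  · exact key _ _ _ _ l2_4 h1 h2
  · exact key _ _ _ _ l2_5 h1 h2
  · exact key _ _ _ _ l2_6 h1 h2
  · exact key _ _ _ _ l2_7 h1 h2

theorem PP_rt (g : Fin 4) : ∀ ab ∈ PP, ∃ ab' ∈ PP, rt^[g.val] ab'.1 = ab.1 ∧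
    rt^[g.val] ab'.2 = ab.2 := by
  revert g
  decide

theorem l2_all {P : Set Pl} (hP : Tiling P) {q : Pl} (hq : q ∈ P) {a b : ℤ × ℤ}
    (hab : (a, b) ∈ PP) (h1 : sh a q ∈ P) (h2 : sh (a + b) q ∈ P) : sh b q ∈ P := by
  obtain ⟨ab', hab', e1, e2⟩ := PP_rt q.1 (a, b) hab
  simp only at e1 e2
  have := l2_base (seen_tiling hP q) (zero_mem_seen hq) ab' hab'
    (by rw [mem_seen, e1]; exact h1) (by rw [mem_seen, rt_iter_add, e1, e2]; exact h2)
  rw [mem_seen, e2] at this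
  exact this

theorem mlt_succ (n : ℤ) (w : ℤ × ℤ) : mlt (n + 1) w = mlt n w + w := by
  unfold mlt
  ext
  · simp; ring
  · simp; ring

theorem mlt_pred (n : ℤ) (w : ℤ × ℤ) : mlt (n - 1) w = mlt n w + -w := by
  unfold mlt
  ext
  · simp; ring
  · simp; ring

theorem mlt_zero (w : ℤ × ℤ) : mlt 0 w = 0 := by
  unfold mlt
  simp

theorem mlt_one (w : ℤ × ℤ) : mlt 1 w = w := by
  unfold mlt
  simp

theorem mlt_neg_one (w : ℤ × ℤ) : mlt (-1) w = -w := by
  unfold mlt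
  ext <;> simp

theorem mlt_add (m n : ℤ) (w : ℤ × ℤ) : mlt (m + n) w = mlt m w + mlt n w := by
  unfold mlt
  ext
  · simp; ring
  · simp; ring

/-- rows: if a neighbour in one direction is missing then it is missing along the whole line -/
theorem row_gen {P : Set Pl} (hP : Tiling P) {a b : ℤ × ℤ} (h1 : (a, b) ∈ PP) (h2 : (-a, b) ∈ PP)
    (hA : ∀ q ∈ P, sh b q ∉ P → sh a q ∈ P ∧ sh (-a) q ∈ P) {q : Pl} (hq : q ∈ P)
    (hb : sh b q ∉ P) (n : ℤ) : sh (mlt n a) q ∈ P ∧ sh (mlt n a + b) q ∉ P := by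
  have step : ∀ (n : ℤ) (c : ℤ × ℤ), (c, b) ∈ PP → (c = a ∨ c = -a) →
      (sh (mlt n a) q ∈ P ∧ sh (mlt n a + b) q ∉ P) →
        (sh (mlt n a + c) q ∈ P ∧ sh (mlt n a + c + b) q ∉ P) := by
    intro n c hc hca ⟨h3, h4⟩
    have h5 : sh b (sh (mlt n a) q) ∉ P := by rw [sh_sh]; exact h4
    have h6 := hA _ h3 h5
    have h7 : sh c (sh (mlt n a) q) ∈ P := by
      rcases hca with rfl | rfl
      · exact h6.1
      · exact h6.2
    refine ⟨by rw [sh_sh] at h7; exact h7, fun h8 => h5 ?_⟩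
    refine l2_all hP h3 hc h7 ?_
    rw [sh_sh, ← add_assoc]
    exact h8
  induction n using Int.induction_on with
  | zero =>
    rw [mlt_zero, sh_zero, zero_add]
    exact ⟨hq, hb⟩
  | succ n ih =>
    rw [mlt_succ]
    exact step _ a h1 (Or.inl rfl) ih
  | pred n ih =>
    rw [mlt_pred]
    exact step _ (-a) h2 (Or.inr rfl) ih

theorem row1 {P : Set Pl} (hP : Tiling P) {q : Pl} (hq : q ∈ P) (s : ℤ) (hs : s = 1 ∨ s = -1)
    (hb : sh (mlt s w2) q ∉ P) (n : ℤ) :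
    sh (mlt n w1) q ∈ P ∧ sh (mlt n w1 + mlt s w2) q ∉ P := by
  refine row_gen hP ?_ ?_ ?_ hq hb n
  · rcases hs with rfl | rfl <;> decide
  · rcases hs with rfl | rfl <;> decide
  · intro r hr hb'
    rcases l1_all hP hr with h | h
    · exact h
    · exfalso
      rcases hs with rfl | rfl
      · rw [mlt_one] at hb'; exact hb' h.1
      · rw [mlt_neg_one] at hb'; exact hb' h.2

theorem row2 {P : Set Pl} (hP : Tiling P) {q : Pl} (hq : q ∈ P) (s : ℤ) (hs : s = 1 ∨ s = -1)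
    (hb : sh (mlt s w1) q ∉ P) (n : ℤ) :
    sh (mlt n w2) q ∈ P ∧ sh (mlt n w2 + mlt s w1) q ∉ P := by
  refine row_gen hP ?_ ?_ ?_ hq hb n
  · rcases hs with rfl | rfl <;> decide
  · rcases hs with rfl | rfl <;> decide
  · intro r hr hb'
    rcases l1_all hP hr with h | h
    · exfalso
      rcases hs with rfl | rfl
      · rw [mlt_one] at hb'; exact hb' h.1
      · rw [mlt_neg_one] at hb'; exact hb' h.2
    · exact h

theorem cfl_sound {P : Set Pl} (hP : Tiling P) : ∀ (l seen : List Pl) (occ : ℕ),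
    cfl l seen occ = true → (∀ q ∈ l, q ∈ P ∧ bx 26 q.2) → (∀ q ∈ seen, q ∈ P ∧ bx 26 q.2) →
      occ = uni (seen.map mk) → False := by
  intro l
  induction l with
  | nil => intro seen occ h; rw [cfl] at h; exact Bool.noConfusion h
  | cons q l ih =>
    intro seen occ h hl hs ho
    rw [cfl] at h
    have hl' : ∀ q ∈ l, q ∈ P ∧ bx 26 q.2 := fun r hr => hl r (List.mem_cons_of_mem _ hr)
    by_cases h1 : q ∈ seen
    · rw [decide_eq_true h1, cond_true] at h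
      exact ih seen occ h hl' hs ho
    · rw [decide_eq_false h1, cond_false] at h
      by_cases h2 : occ &&& mk q = 0
      · have : Nat.beq (occ &&& mk q) 0 = true := by rw [Nat.beq_eq]; exact h2
        rw [this, cond_true] at h
        refine ih (q :: seen) _ h hl' ?_ ?_
        · intro r hr
          rcases List.mem_cons.mp hr with rfl | hr
          · exact hl _ List.mem_cons_self
          · exact hs r hr
        · rw [List.map_cons, uni, ← ho, Nat.lor_comm]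
      · obtain ⟨i, hi, hi'⟩ := exists_bit h2
        rw [ho, testBit_uni] at hi
        obtain ⟨m, hm, hmi⟩ := hi
        obtain ⟨r, hr, rfl⟩ := List.mem_map.mp hm
        unfold mk at hi' hmi
        rw [testBit_bits, List.mem_map] at hi' hmi
        obtain ⟨f, hf, hfi⟩ := hmi
        obtain ⟨f', hf', hfi'⟩ := hi'
        have hqb := (hl q List.mem_cons_self)
        have hrb := hs r hr
        have b1 := lam_nonneg (bx_add hrb.2 hf)
        have b2 := lam_nonneg (bx_add hqb.2 hf')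
        have : r.2 + f = q.2 + f' := by
          refine lam_inj (bx_add hrb.2 hf) (bx_add hqb.2 hf') ?_
          omega
        have := hP.eq_of_common hrb.1 hqb.1 hf hf' this
        exact h1 (this ▸ hr)

theorem LL_bx (g h : Fin 4) : ∀ d ∈ ds, ∀ q ∈ LL g h d, bx 26 q.2 := by
  revert g h
  decide

theorem reps (d : ℤ × ℤ) : ∃ m n : ℤ, d + mlt m w1 + mlt n w2 ∈ ds := by
  have h1 : ∃ m n : ℤ, 0 ≤ (d + mlt m w1 + mlt n w2).1 ∧ (d + mlt m w1 + mlt n w2).1 < 10 ∧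
      0 ≤ (d + mlt m w1 + mlt n w2).2 ∧ (d + mlt m w1 + mlt n w2).2 < 2 := by
    -- the vectors (10,0) = w1 - 2 w2 and (6,2) = w1 - w2
    set j := d.2 / 2 with hj
    set i := (d.1 - 6 * j) / 10 with hi
    refine ⟨-i - j, 2 * i + j, ?_⟩
    have e1 : (d + mlt (-i - j) w1 + mlt (2 * i + j) w2).1 = d.1 - 6 * j - 10 * i := by
      show d.1 + (-i - j) * 2 + (2 * i + j) * (-4) = _
      ring
    have e2 : (d + mlt (-i - j) w1 + mlt (2 * i + j) w2).2 = d.2 - 2 * j := by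
      show d.2 + (-i - j) * 4 + (2 * i + j) * 2 = _
      ring
    rw [e1, e2]
    omega
  obtain ⟨m, n, h1, h2, h3, h4⟩ := h1
  set e := d + mlt m w1 + mlt n w2 with he
  have h5 : ∃ m' ∈ [(-3 : ℤ), -2, -1, 0, 1, 2, 3], ∃ n' ∈ [(-3 : ℤ), -2, -1, 0, 1, 2, 3],
      e + mlt m' w1 + mlt n' w2 ∈ ds := by
    obtain ⟨x, y⟩ := e
    simp only at h1 h2 h3 h4
    have : ∀ x ∈ Finset.Ico (0 : ℤ) 10, ∀ y ∈ Finset.Ico (0 : ℤ) 2,
        ∃ m' ∈ [(-3 : ℤ), -2, -1, 0, 1, 2, 3], ∃ n' ∈ [(-3 : ℤ), -2, -1, 0, 1, 2, 3],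
          ((x, y) : ℤ × ℤ) + mlt m' w1 + mlt n' w2 ∈ ds := by decide +kernel
    exact this x (Finset.mem_Ico.mpr ⟨h1, h2⟩) y (Finset.mem_Ico.mpr ⟨h3, h4⟩)
  obtain ⟨m', _, n', _, h⟩ := h5
  refine ⟨m + m', n + n', ?_⟩
  rw [mlt_add, mlt_add]
  have : d + (mlt m w1 + mlt m' w1) + (mlt n w2 + mlt n' w2) = e + mlt m' w1 + mlt n' w2 := by
    rw [he]; abel
  rw [this]
  exact h

theorem cross {P : Set Pl} (hP : Tiling P) {q r : Pl} (hq : q ∈ P) (hr : r ∈ P) (s1 s2 : ℤ)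
    (hs1 : s1 = 1 ∨ s1 = -1) (hs2 : s2 = 1 ∨ s2 = -1) (hqb : sh (mlt s2 w2) q ∉ P)
    (hrb : sh (mlt s1 w1) r ∉ P) : False := by
  obtain ⟨m, n, hd⟩ := reps (r.2 - q.2)
  set d := r.2 - q.2 + mlt m w1 + mlt n w2 with hdd
  set P' : Set Pl := {x | act 0 (q.2 + mlt (-m) w1) x ∈ P} with hP'
  have hT : Tiling P' := hP.pre 0 _
  have hact : ∀ x : Pl, x ∈ P' ↔ (x.1, x.2 + (q.2 + mlt (-m) w1)) ∈ P := by
    intro x
    show act 0 _ x ∈ P ↔ _
    have : act 0 (q.2 + mlt (-m) w1) x = (x.1, x.2 + (q.2 + mlt (-m) w1)) := by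
      unfold act
      ext1
      · simp
      · rfl
    rw [this]
  have hrow1 : ∀ k : ℤ, (q.1, mlt k w1) ∈ P' ∧ (q.1, mlt k w1 + mlt s2 w2) ∉ P' := by
    intro k
    have h := row1 hP hq s2 hs2 hqb (k + -m)
    rw [hact, hact]
    constructor
    · have e : ((q.1, mlt k w1 + (q.2 + mlt (-m) w1)) : Pl) = sh (mlt (k + -m) w1) q := by
        unfold sh
        rw [mlt_add]
        ext1
        · rfl
        · simp only; abel
      simp only
      rw [e]
      exact h.1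
    · have e : ((q.1, mlt k w1 + mlt s2 w2 + (q.2 + mlt (-m) w1)) : Pl) =
          sh (mlt (k + -m) w1 + mlt s2 w2) q := by
        unfold sh
        rw [mlt_add]
        ext1
        · rfl
        · simp only; abel
      simp only
      rw [e]
      exact h.2
  have hmm : mlt m w1 + mlt (-m) w1 = 0 := by rw [← mlt_add, add_neg_cancel, mlt_zero]
  have hrow2 : ∀ k : ℤ, (r.1, d + mlt k w2) ∈ P' ∧ (r.1, d + mlt k w2 + mlt s1 w1) ∉ P' := by
    intro k
    have h := row2 hP hr s1 hs1 hrb (k + n)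
    rw [hact, hact]
    have e0 : d + mlt k w2 + (q.2 + mlt (-m) w1) = r.2 + mlt (k + n) w2 := by
      rw [hdd, mlt_add]
      have : r.2 - q.2 + mlt m w1 + mlt n w2 + mlt k w2 + (q.2 + mlt (-m) w1) =
        r.2 + (mlt k w2 + mlt n w2) + (mlt m w1 + mlt (-m) w1) := by abel
      rw [this, hmm, add_zero]
    constructor
    · simp only
      rw [e0]
      exact h.1
    · simp only
      have : d + mlt k w2 + mlt s1 w1 + (q.2 + mlt (-m) w1) =
          r.2 + (mlt (k + n) w2 + mlt s1 w1) := by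
        have e5 : d + mlt k w2 + mlt s1 w1 + (q.2 + mlt (-m) w1) =
          (d + mlt k w2 + (q.2 + mlt (-m) w1)) + mlt s1 w1 := by abel
        rw [e5, e0, add_assoc]
      rw [this]
      exact h.2
  have hLL : ∀ x ∈ LL q.1 r.1 d, x ∈ P' := by
    intro x hx
    unfold LL at hx
    have z1 : ((0 : ℤ), (0 : ℤ)) = mlt 0 w1 := rfl
    have z2 : d = d + mlt 0 w2 := by rw [mlt_zero, add_zero]
    rcases List.mem_cons.mp hx with rfl | hx
    · exact (hrow1 _).1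
    rcases List.mem_cons.mp hx with rfl | hx
    · rw [z1]; exact (hrow1 _).1
    rcases List.mem_cons.mp hx with rfl | hx
    · exact (hrow1 _).1
    rcases List.mem_cons.mp hx with rfl | hx
    · exact (hrow2 _).1
    rcases List.mem_cons.mp hx with rfl | hx
    · have := (hrow2 0).1
      rwa [← z2] at this
    rcases List.mem_cons.mp hx with rfl | hx
    · exact (hrow2 _).1
    · exact absurd hx List.not_mem_nil
  have hFF : ∀ x ∈ FF q.1 r.1 d s1 s2, x ∉ P' := by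
    intro x hx
    unfold FF at hx
    rcases List.mem_append.mp hx with hx | hx
    · obtain ⟨k, _, rfl⟩ := List.mem_map.mp hx
      exact (hrow1 k).2
    · obtain ⟨k, _, rfl⟩ := List.mem_map.mp hx
      exact (hrow2 k).2
  have hchk : chk3 q.1 r.1 d s1 s2 = true := by
    have h := l3_all q.1 r.1
    unfold chk3a at h
    rw [List.all_eq_true] at h
    have h' := h d hd
    rw [List.all_eq_true] at h'
    have h'' := h' s1 (by rcases hs1 with rfl | rfl <;> simp)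
    rw [List.all_eq_true] at h''
    exact h'' s2 (by rcases hs2 with rfl | rfl <;> simp)
  unfold chk3 at hchk
  rw [Bool.or_eq_true, Bool.or_eq_true] at hchk
  rcases hchk with (h | h) | h
  · exact cfl_sound hT _ _ _ h (fun x hx => ⟨hLL x hx, LL_bx _ _ d hd x hx⟩)
      (fun x hx => absurd hx List.not_mem_nil) rfl
  · rw [List.any_eq_true] at h
    obtain ⟨x, hx, hx'⟩ := h
    exact hFF x (of_decide_eq_true hx') (hLL x hx)
  · rw [List.any_eq_true] at h
    obtain ⟨c, _, hc⟩ := h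
    exact refuteL hc hT hLL hFF

/-- **Every exact cover is invariant under `w1` or under `w2`.** -/
theorem invariant {P : Set Pl} (hP : Tiling P) :
    (∀ q ∈ P, sh w1 q ∈ P ∧ sh (-w1) q ∈ P) ∨ (∀ q ∈ P, sh w2 q ∈ P ∧ sh (-w2) q ∈ P) := by
  by_contra hcon
  push Not at hcon
  obtain ⟨⟨r, hr, hr'⟩, ⟨q, hq, hq'⟩⟩ := hcon
  have h1 : ∃ s1 : ℤ, (s1 = 1 ∨ s1 = -1) ∧ sh (mlt s1 w1) r ∉ P := by
    by_cases h : sh w1 r ∈ P
    · exact ⟨-1, Or.inr rfl, by rw [mlt_neg_one]; exact hr' h⟩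
    · exact ⟨1, Or.inl rfl, by rw [mlt_one]; exact h⟩
  have h2 : ∃ s2 : ℤ, (s2 = 1 ∨ s2 = -1) ∧ sh (mlt s2 w2) q ∉ P := by
    by_cases h : sh w2 q ∈ P
    · exact ⟨-1, Or.inr rfl, by rw [mlt_neg_one]; exact hq' h⟩
    · exact ⟨1, Or.inl rfl, by rw [mlt_one]; exact h⟩
  obtain ⟨s1, hs1, h1⟩ := h1
  obtain ⟨s2, hs2, h2⟩ := h2
  exact cross hP hq hr s1 s2 hs1 hs2 h2 h1

end AlefT.H0
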