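import Pool.Agent.AlefT.Cyl

set_option autoImplicit false

namespace AlefT.H0

theorem lc_a0 : chkC [0, 1, 2, 3] [(1, (0, 0))] [(0, (-8, 0))]
    [389, 401, 402, 392, 392, 391] = true := by
  decide +kernel

theorem lc_a1 : chkC [0, 1, 2, 3] [(1, (0, 0))] [(0, (-7, 2))]
    [388, 389, 398, 405, 396, 402] = true := by
  decide +kernel

theorem lc_b0 : chkC [0, 1, 2, 3] [(1, (0, 0))] [(0, (-12, 1))]
    [388, 389, 387, 389, 371, 398, 405, 396, 402] = true := by
  decide +kernel

theorem lc_b1 : chkC [0, 1, 2, 3] [(1, (0, 0))] [(0, (-11, 3))]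
    [388, 389, 370, 398, 405, 396, 402] = true := by
  decide +kernel

theorem lc_c0 : chkC [0, 1, 2, 3] [(0, (0, 0)), (0, (1, 2)), (0, (-4, 1)), (0, (-3, 3))] [(0, (-8, 2))]
    [385] = true := by
  decide +kernel

theorem lc_c1 : chkC [0, 1, 2, 3] [(0, (0, 0)), (0, (1, 2)), (0, (-4, 1)), (0, (-3, 3))] [(0, (-7, 4))]
    [384] = true := by
  decide +kernel

theorem lc_d0 : chkC [0, 2] [(0, (0, 0))] [(0, (18, 0))]
    [401, 402, 395, 384, 385, 366, 367, 348, 349, 330, 331, 410, 411, 428, 429, 446, 447, 464,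
      468, 450, 432, 414, 411, 394, 390, 395, 384, 385, 428, 429, 438, 439, 464, 468, 432, 394,
      390, 403, 396, 410, 389, 414, 385, 428, 371, 432, 367, 446, 353, 450, 464, 404, 403, 402,
      408, 411, 385, 382, 427, 428, 366, 365, 444, 447, 349, 346, 463, 464, 399] = true := by
  decide +kernel

theorem lc_d1 : chkC [0, 2] [(0, (0, 0))] [(0, (-18, 0))]
    [401, 402, 395, 384, 385, 366, 367, 349, 411, 394, 390, 395, 384, 385, 428, 429, 438, 439,
      358, 354, 349, 432, 394, 390, 403, 396, 410, 389, 414, 385, 428, 371, 432, 367, 349, 404,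
      403, 402, 408, 411, 385, 382, 427, 428, 366, 365, 349, 399] = true := by
  decide +kernel

end AlefT.H0
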